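import Pool.Agent.H561.CM.A4
import Pool.Graph.R_seed8.W93.PG5

set_option autoImplicit false

/-! The main term and the passage from a grid to all initial segments, relative to a short scale `P`. -/

namespace Pool.Agent.H561.CM

open Finset
open Pool.Agent.H373R2.T7
open Pool.Agent.H560R3.GB (sing C₂)
open Pool.Agent.W93.GB
open Pool.Agent.W93.PP (MT MT_sing MT_one Cnt grid)
open Pool.Agent.W93.PG (lamz_nn)
open Pool.Agent.helper24_UT (Ed)

/-- fourth roots -/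
lemma root4 (X : ℕ) (hX : 16 ≤ X) : ∃ s : ℝ, 1 ≤ s ∧ s * s = √(X : ℝ) ∧ s ^ 4 = X ∧ Real.log s = Real.log X / 4 := by
  have hX16 : (16 : ℝ) ≤ X := by exact_mod_cast hX
  have hX0 : (0 : ℝ) < X := by linarith
  have hsq : √(X : ℝ) * √(X : ℝ) = X := Real.mul_self_sqrt hX0.le
  have hs0 : 0 < √(X : ℝ) := Real.sqrt_pos.2 hX0
  have hq2 : √(√(X : ℝ)) * √(√(X : ℝ)) = √(X : ℝ) := Real.mul_self_sqrt hs0.le
  have hq0 : 0 < √(√(X : ℝ)) := Real.sqrt_pos.2 hs0
  have hX4 : √(√(X : ℝ)) ^ 4 = X := by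
    calc √(√(X : ℝ)) ^ 4 = (√(√(X : ℝ)) * √(√(X : ℝ))) * (√(√(X : ℝ)) * √(√(X : ℝ))) := by ring
      _ = X := by rw [hq2, hsq]
  refine ⟨√(√(X : ℝ)), ?_, hq2, hX4, ?_⟩
  · by_contra hcon
    push Not at hcon
    have : √(√(X : ℝ)) ^ 4 ≤ 1 := pow_le_one₀ hq0.le hcon.le
    linarith
  · rw [Real.log_sqrt hs0.le, Real.log_sqrt hX0.le]
    ring

/-- the main term -/
lemma main_term (V E1 G : ℕ) (hE1 : V + 6 ≤ E1) : ∃ X0 : ℕ, ∀ X : ℕ, X0 ≤ X → ∀ m : ℕ, m ≤ X → 2 ∣ m → m ≠ 0 →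
    ∀ z : ℕ, Real.log X ^ E1 ≤ z → (z : ℝ) ≤ Real.log X ^ (E1 + 1) → ∀ P : ℕ, √(X : ℝ) ≤ P * Real.log X ^ G →
      ∀ y : ℕ, y < m → y ≤ P →
      |∑ n ∈ Icc 1 y, ArithmeticFunction.vonMangoldt n * lamzI z ((m : ℤ) - n) - sing m * y| ≤ 2 * (P / Real.log X ^ (V + 2)) ∧
      0 ≤ sing m ∧ sing m ≤ 2 * Real.log X := by
  classical
  obtain ⟨N0, h0⟩ := tuple_main 1 (E1 + 2) (V + 4) le_rfl
  obtain ⟨n2, h2⟩ := ev_L' (4 ^ (E1 + 5) + 4 ^ (V + 5) + 100)
  obtain ⟨n3, h3⟩ := Vz_inv_small (E1 + 1)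
  obtain ⟨n4, h4⟩ := ev_log' (2 * (V + 8 + G)) 1
  refine ⟨N0 ^ 4 + n2 + n3 + n4 + 16, fun X hX m hmX h2m hm0 z hz1 hz2 P hP y hym hyP => ?_⟩
  have hL := h2 X (by omega)
  have hV := h3 X (by omega) z
  have a4 := h4 X (by omega)
  have hX4 : 16 ≤ X := by omega
  obtain ⟨s, hs1, hss, hs4, hlogs⟩ := root4 X hX4
  have hvm : ∀ n : ℕ, 1 ≤ n → n ≤ X → (ArithmeticFunction.vonMangoldt n : ℝ) ≤ Real.log X := by
    intro n hn1 hn2
    refine ArithmeticFunction.vonMangoldt_le_log.trans ?_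
    exact Real.log_le_log (by exact_mod_cast hn1) (by exact_mod_cast hn2)
  have h7 := natlog_le X (by omega)
  obtain ⟨L, hLd⟩ : ∃ L, L = Real.log (X : ℝ) := ⟨_, rfl⟩
  rw [← hLd] at hL hV a4 hz1 hz2 hP hlogs hvm h7 ⊢
  rw [one_mul] at a4
  have hp1 : (0 : ℝ) < 4 ^ (E1 + 5) := by positivity
  have hp2 : (0 : ℝ) < 4 ^ (V + 5) := by positivity
  have hL100 : 100 ≤ L := by linarith
  have hL1 : 1 ≤ L := by linarith
  have hL0 : 0 < L := by linarith
  have hXr : (16 : ℝ) ≤ X := by exact_mod_cast hX4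
  have hX0 : (0 : ℝ) < X := by linarith
  have hs0 : 0 < s := by linarith
  have hsL : L ^ (V + 8 + G) ≤ s := by
    by_contra hcon
    push Not at hcon
    have e1 : s * s < L ^ (V + 8 + G) * L ^ (V + 8 + G) := mul_self_lt_mul_self hs0.le hcon
    rw [hss, ← pow_add] at e1
    have e2 : V + 8 + G + (V + 8 + G) = 2 * (V + 8 + G) := by ring
    rw [e2] at e1
    linarith
  have hLG0 : 0 < L ^ G := by positivity
  have hPs : s * L ^ (V + 8) ≤ P := by
    have e1 : s * L ^ (V + 8) * L ^ G ≤ P * L ^ G := by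
      calc s * L ^ (V + 8) * L ^ G = s * L ^ (V + 8 + G) := by ring
        _ ≤ s * s := mul_le_mul_of_nonneg_left hsL hs0.le
        _ = √(X : ℝ) := hss
        _ ≤ _ := hP
    exact le_of_mul_le_mul_right e1 hLG0
  have hz0 : (1 : ℝ) ≤ z := (one_le_pow₀ hL1).trans hz1
  have hzn : 1 ≤ z := by exact_mod_cast hz0
  have hV' := hV hzn hz2
  have hcnt : Cnt 1 m = 1 := by
    unfold Cnt
    rw [range_one, filter_singleton, if_pos (by simp), card_singleton]
  have hlogh : (Nat.log 2 m : ℝ) ≤ 2 * L := by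
    have h5 : Nat.log 2 m ≤ Nat.log 2 X := Nat.log_mono_right hmX
    have h6 : (Nat.log 2 m : ℝ) ≤ Nat.log 2 X := by exact_mod_cast h5
    exact h6.trans h7
  have hzL : 8 * L ^ (V + 4) ≤ z := by
    refine le_trans ?_ hz1
    calc 8 * L ^ (V + 4) ≤ L * L ^ (V + 4) := mul_le_mul_of_nonneg_right (by linarith) (by positivity)
      _ = L ^ (V + 5) := by ring
      _ ≤ L ^ E1 := pow_le_pow_right₀ hL1 (by omega)
  have hz8L : 8 * L ≤ z := by
    refine le_trans ?_ hzL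
    have : L ≤ L ^ (V + 4) := le_self_pow₀ hL1 (by omega)
    linarith
  have hz2n : 2 ≤ z := by
    have : (2 : ℝ) ≤ z := by linarith
    exact_mod_cast this
  obtain ⟨m1, m2, m3⟩ := MT_sing z 1 m L hL1 le_rfl hzn h2m hm0 (by rw [hcnt]; exact Nat.one_pos) hV' hlogh hz8L
  rw [hcnt, Nat.cast_one, div_one] at m1 m2 m3
  rw [MT_one z m h2m hm0 hz2n] at m1
  obtain ⟨S, hS⟩ : ∃ S, S = sing m := ⟨_, rfl⟩
  obtain ⟨M, hM⟩ : ∃ M, M = singZ (sh m) z := ⟨_, rfl⟩
  rw [← hS, ← hM] at m1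
  rw [← hS] at m2 m3
  rw [← hS]
  refine ⟨?_, m2, m3⟩
  have m1' : |M - S| ≤ 1 / L ^ (V + 2) := by
    refine m1.trans ?_
    rw [div_le_div_iff₀ (by linarith) (by positivity)]
    calc 8 * L ^ 2 * L ^ (V + 2) = 8 * L ^ (V + 4) := by ring
      _ ≤ 1 * z := by linarith
  obtain ⟨ε, hε⟩ : ∃ ε : ℝ, ε = P / L ^ (V + 2) := ⟨_, rfl⟩
  have hP0 : (0 : ℝ) < P := lt_of_lt_of_le (by positivity) hPs
  have hε0 : 0 < ε := by rw [hε]; positivity
  rw [← hε]
  have hyX : (y : ℝ) ≤ P := by exact_mod_cast hyP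
  have hy00 : (0 : ℝ) ≤ y := Nat.cast_nonneg _
  rcases le_or_gt s y with hysq | hysq
  · have hy0 : (0 : ℝ) < y := lt_of_lt_of_le hs0 hysq
    have hlogy : L / 4 ≤ Real.log y := by
      rw [← hlogs]
      exact Real.log_le_log hs0 hysq
    have hyN : N0 ≤ y := by
      have e1 : (N0 : ℝ) ^ 4 ≤ s ^ 4 := by
        rw [hs4]
        exact_mod_cast (by omega : N0 ^ 4 ≤ X)
      have e2 : (N0 : ℝ) ≤ s := by
        by_contra hc
        push Not at hc
        have := pow_lt_pow_left₀ hc hs0.le (by norm_num : (4 : ℕ) ≠ 0)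
        linarith
      exact_mod_cast e2.trans hysq
    have hLy : L ^ (E1 + 1) ≤ Real.log y ^ (E1 + 2) := by
      have h6 : (L / 4) ^ (E1 + 2) ≤ Real.log y ^ (E1 + 2) := pow_le_pow_left₀ (by linarith) hlogy _
      refine le_trans ?_ h6
      rw [div_pow, le_div_iff₀ (by positivity), show E1 + 2 = (E1 + 1) + 1 by ring, pow_succ L (E1 + 1)]
      apply mul_le_mul_of_nonneg_left _ (by positivity)
      have : (4 : ℝ) ^ (E1 + 1 + 1) ≤ 4 ^ (E1 + 5) := pow_le_pow_right₀ (by norm_num) (by omega)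
      linarith
    have g2 := h0 y hyN z hzn (hz2.trans hLy) (sh m)
    rw [← Pool.Agent.W93.PG.win_sum z m y hym, ← hM] at g2
    have hly0 : 0 < Real.log y := by linarith
    have g3 : (y : ℝ) / Real.log y ^ (V + 4) ≤ ε := by
      rw [hε, div_le_div_iff₀ (by positivity) (by positivity)]
      calc (y : ℝ) * L ^ (V + 2) ≤ P * L ^ (V + 2) := mul_le_mul_of_nonneg_right hyX (by positivity)
        _ ≤ P * (L / 4) ^ (V + 4) := by
            apply mul_le_mul_of_nonneg_left _ hP0.le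
            rw [div_pow, le_div_iff₀ (by positivity), show V + 4 = (V + 2) + 2 by ring, pow_add L (V + 2) 2]
            apply mul_le_mul_of_nonneg_left _ (by positivity)
            rw [show V + 2 + 2 = V + 4 by ring]
            have : (4 : ℝ) ^ (V + 4) ≤ 4 ^ (V + 5) := pow_le_pow_right₀ (by norm_num) (by omega)
            nlinarith
        _ ≤ P * Real.log y ^ (V + 4) := by
            apply mul_le_mul_of_nonneg_left _ hP0.le
            exact pow_le_pow_left₀ (by linarith) hlogy _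
    have g4 : |M - S| * y ≤ ε := by
      calc |M - S| * y ≤ 1 / L ^ (V + 2) * P := mul_le_mul m1' hyX hy0.le (by positivity)
        _ = ε := by rw [hε]; ring
    have e2 : ∑ n ∈ Icc 1 y, ArithmeticFunction.vonMangoldt n * lamzI z ((m : ℤ) - n) - S * y =
        (∑ n ∈ Icc 1 y, ArithmeticFunction.vonMangoldt n * lamzI z ((m : ℤ) - n) - M * y) + (M - S) * y := by ring
    rw [e2]
    refine (abs_add_le _ _).trans ?_
    have f2 : |(M - S) * y| ≤ ε := by rw [abs_mul, abs_of_nonneg hy0.le]; exact g4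
    linarith [g2.trans g3]
  · -- a short window
    have g1 : |∑ n ∈ Icc 1 y, ArithmeticFunction.vonMangoldt n * lamzI z ((m : ℤ) - n)| ≤ y * (L * L) := by
      refine (abs_sum_le_sum_abs _ _).trans ?_
      have h5 : ∀ n ∈ Icc 1 y, |ArithmeticFunction.vonMangoldt n * lamzI z ((m : ℤ) - n)| ≤ L * L := by
        intro n hn
        rw [mem_Icc] at hn
        rw [abs_mul, abs_of_nonneg ArithmeticFunction.vonMangoldt_nonneg]
        apply mul_le_mul _ _ (abs_nonneg _) hL0.le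
        · exact hvm n hn.1 (by omega)
        · unfold lamzI
          split_ifs
          · rw [abs_of_nonneg (lamz_nn _ _)]
            exact (Pool.Agent.W93.PG.lamz_le _ _).trans hV'
          · rw [abs_zero]; exact hL0.le
      refine (sum_le_sum h5).trans (le_of_eq ?_)
      rw [sum_const, Nat.card_Icc, nsmul_eq_mul, Nat.add_sub_cancel]
    have g2 : |S * y| ≤ y * (L * L) := by
      rw [abs_of_nonneg (mul_nonneg m2 hy00)]
      have : 2 * L ≤ L * L := by nlinarith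
      nlinarith
    have g3 : (y : ℝ) * (L * L) ≤ ε := by
      rw [hε, le_div_iff₀ (by positivity)]
      calc (y : ℝ) * (L * L) * L ^ (V + 2) = y * L ^ (V + 4) := by ring
        _ ≤ s * L ^ (V + 8) := by
            apply mul_le_mul hysq.le (pow_le_pow_right₀ hL1 (by omega)) (by positivity) hs0.le
        _ ≤ P := hPs
    have g4 := abs_sub (∑ n ∈ Icc 1 y, ArithmeticFunction.vonMangoldt n * lamzI z ((m : ℤ) - n)) (S * y)
    linarith

/-- from the hypothesis at the points of a grid to all initial segments -/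
theorem det (V E1 G : ℕ) (hE1 : V + 6 ≤ E1) : ∃ X0 : ℕ, ∀ X : ℕ, X0 ≤ X → ∀ m : ℕ, m ≤ X → 2 ∣ m → m ≠ 0 →
    ∀ z : ℕ, Real.log X ^ E1 ≤ z → (z : ℝ) ≤ Real.log X ^ (E1 + 1) → ∀ T : ℕ, Real.log X ^ (V + 3) ≤ T →
    ∀ P : ℕ, √(X : ℝ) ≤ P * Real.log X ^ G → P < m →
    (∀ i ∈ range (T + 1), |∑ n ∈ Icc 1 (min (i * (P / T + 1)) P), ArithmeticFunction.vonMangoldt n *
        Ed z ((m : ℤ) - n)| ≤ P / Real.log X ^ (V + 2)) →
    ∀ y : ℕ, y ≤ P → |∑ n ∈ Icc 1 y, ArithmeticFunction.vonMangoldt n * lamI ((m : ℤ) - n) - sing m * y| ≤ P / Real.log X ^ V := by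
  classical
  obtain ⟨X1, h1⟩ := main_term V E1 G hE1
  obtain ⟨n2, h2⟩ := ev_L' 100
  obtain ⟨n4, h4⟩ := ev_log' (V + 8 + G) 1
  refine ⟨X1 + n2 + n4 + 4, fun X hX m hmX h2m hm0 z hz1 hz2 T hT1 P hP hPm hyp y hyP => ?_⟩
  have hL := h2 X (by omega)
  have a4 := h4 X (by omega)
  have hwin := h1 X (by omega) m hmX h2m hm0 z hz1 hz2 P hP
  obtain ⟨L, hLd⟩ : ∃ L, L = Real.log (X : ℝ) := ⟨_, rfl⟩
  rw [← hLd] at hL a4 hz1 hz2 hT1 hyp hwin hP ⊢
  rw [one_mul] at a4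
  have hL1 : 1 ≤ L := by linarith
  have hL0 : 0 < L := by linarith
  have hT0 : (1 : ℝ) ≤ T := (one_le_pow₀ hL1).trans hT1
  have hTn : 1 ≤ T := by exact_mod_cast hT0
  have hLG0 : 0 < L ^ G := by positivity
  have hPL : L ^ (V + 8) ≤ P := by
    have e1 : L ^ (V + 8) * L ^ G ≤ P * L ^ G := by
      calc L ^ (V + 8) * L ^ G = L ^ (V + 8 + G) := by ring
        _ ≤ √(X : ℝ) := a4
        _ ≤ _ := hP
    exact le_of_mul_le_mul_right e1 hLG0
  have hP0 : (0 : ℝ) < P := lt_of_lt_of_le (by positivity) hPL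
  obtain ⟨ε, hε⟩ : ∃ ε : ℝ, ε = P / L ^ (V + 2) := ⟨_, rfl⟩
  have hε0 : 0 < ε := by rw [hε]; positivity
  obtain ⟨_, m2, m3⟩ := hwin y (by omega) hyP
  obtain ⟨S, hS⟩ : ∃ S, S = sing m := ⟨_, rfl⟩
  rw [← hS] at hwin m2 m3 ⊢
  rw [← hε] at hwin hyp
  obtain ⟨s, hs⟩ : ∃ s, s = P / T + 1 := ⟨_, rfl⟩
  rw [← hs] at hyp
  have hsT : P < T * s := by
    rw [hs]
    have := Nat.lt_div_mul_add (a := P) (b := T) (by omega)
    calc P < P / T * T + T := this
      _ = T * (P / T + 1) := by ring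
  have hsr : (s : ℝ) ≤ 2 * (P / L ^ (V + 3)) := by
    rw [hs]
    push_cast
    have h5 : ((P / T : ℕ) : ℝ) ≤ P / T := Nat.cast_div_le
    have h6 : (P : ℝ) / T ≤ P / L ^ (V + 3) := div_le_div_of_nonneg_left hP0.le (by positivity) hT1
    have h7 : 1 ≤ P / L ^ (V + 3) := by
      rw [le_div_iff₀ (by positivity), one_mul]
      exact (pow_le_pow_right₀ hL1 (by omega)).trans hPL
    linarith
  obtain ⟨F, hF⟩ : ∃ F : ℕ → ℝ, F = fun y => ∑ n ∈ Icc 1 y, ArithmeticFunction.vonMangoldt n * lamI ((m : ℤ) - n) := ⟨_, rfl⟩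
  have hgrid : ∀ i ∈ range (T + 1), |F (min (i * s) P) - S * ((min (i * s) P : ℕ) : ℝ)| ≤ 3 * ε := by
    intro i hi
    have g1 := hyp i hi
    obtain ⟨y', hy'⟩ : ∃ y', y' = min (i * s) P := ⟨_, rfl⟩
    have hy'P : y' ≤ P := by rw [hy']; exact min_le_right _ _
    rw [← hy'] at g1 ⊢
    rw [hF]
    simp only
    have g2 := (hwin y' (by omega) hy'P).1
    have e1 : ∑ n ∈ Icc 1 y', ArithmeticFunction.vonMangoldt n * lamI ((m : ℤ) - n) - S * y' =
        ∑ n ∈ Icc 1 y', ArithmeticFunction.vonMangoldt n * Ed z ((m : ℤ) - n) +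
        (∑ n ∈ Icc 1 y', ArithmeticFunction.vonMangoldt n * lamzI z ((m : ℤ) - n) - S * y') := by
      have e2 : ∑ n ∈ Icc 1 y', ArithmeticFunction.vonMangoldt n * Ed z ((m : ℤ) - n) =
          ∑ n ∈ Icc 1 y', ArithmeticFunction.vonMangoldt n * lamI ((m : ℤ) - n) -
          ∑ n ∈ Icc 1 y', ArithmeticFunction.vonMangoldt n * lamzI z ((m : ℤ) - n) := by
        rw [← sum_sub_distrib]
        apply sum_congr rfl
        intro n _
        unfold Ed
        ring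
      rw [e2]
      ring
    rw [e1]
    refine (abs_add_le _ _).trans ?_
    linarith
  have hall := grid F
    (fun y y' hyy => by
      rw [hF]
      apply sum_le_sum_of_subset_of_nonneg (Icc_subset_Icc_right hyy)
      intro n _ _
      exact mul_nonneg ArithmeticFunction.vonMangoldt_nonneg (lamI_nonneg _)) S (3 * ε) m2 P s T
      (by rw [hs]; exact Nat.le_add_left 1 _) hsT hgrid y hyP
  have hbound : 3 * ε + S * s ≤ P / L ^ V := by
    have h5 : S * s ≤ 4 * ε := by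
      calc S * s ≤ 2 * L * (2 * (P / L ^ (V + 3))) := mul_le_mul m3 hsr (Nat.cast_nonneg _) (by positivity)
        _ = 4 * ε := by
            rw [hε, show V + 3 = (V + 2) + 1 by ring, pow_succ L (V + 2)]
            field_simp
            ring
    have h6 : P / L ^ V = ε * L ^ 2 := by
      rw [hε, pow_add L V 2]
      field_simp
    rw [h6]
    have h8 : (7 : ℝ) ≤ L ^ 2 := by nlinarith
    have h9 := mul_le_mul_of_nonneg_left h8 hε0.le
    linarith
  rw [hF] at hall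
  exact hall.trans hbound

end Pool.Agent.H561.CM
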