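import Pool.Graph.R_seed8.H373R2.T7.BilE
import Pool.Graph.R_pool_sql_team_seeded_620a6dc7.helper24_UT_.Stm2a

set_option autoImplicit false

/-! The circle method in mean square: minor arcs by the supremum of one exponential sum, major arcs by the
mean squares of the other function over short windows in progressions. -/

namespace Pool.Agent.H561.CM

open Finset
open Pool.Agent.H807R2.Dav (ee norm_ee ee_add ee_int ee_zero ee_eq)
open Pool.Agent.H373R2.T7 (sq_expand)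
open Pool.Agent.helper24_UT (NN)

/-- the exponential sum -/
noncomputable def ht (s : Finset ℤ) (f : ℤ → ℂ) (α : ℝ) : ℂ := ∑ n ∈ s, f n * ee (n * α)

/-- the convolution -/
noncomputable def cv (s s' : Finset ℤ) (f g : ℤ → ℂ) (t : ℤ) : ℂ :=
  ∑ p ∈ (s ×ˢ s').filter (fun p => p.1 + p.2 = t), f p.1 * g p.2

lemma pars (I : Finset ℤ) (M : ℕ) (hM : 1 ≤ M) (hI : ∀ a ∈ I, ∀ b ∈ I, |a - b| < M) (G : ℤ → ℂ) :
    ∑ k ∈ range M, ‖ht I G ((k : ℝ) / M)‖ ^ 2 = M * ∑ a ∈ I, ‖G a‖ ^ 2 := by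
  have h1 := sq_expand I G (fun a => a) M hM
  have h2 : ∑ i ∈ I, ∑ j ∈ I, G i * (starRingEnd ℂ) (G j) * (if (M : ℤ) ∣ i - j then (M : ℂ) else 0) =
      ∑ i ∈ I, (M : ℂ) * ((‖G i‖ ^ 2 : ℝ) : ℂ) := by
    apply sum_congr rfl
    intro i hi
    rw [sum_eq_single i]
    · rw [sub_self, if_pos (dvd_zero _), Complex.mul_conj']
      push_cast
      ring
    · intro j hj hne
      rw [if_neg, mul_zero]
      intro hd
      have := Int.eq_zero_of_abs_lt_dvd hd (hI i hi j hj)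
      apply hne
      omega
    · intro h; exact absurd hi h
  rw [h2, ← mul_sum] at h1
  have h3 : (((∑ k ∈ range M, ‖ht I G ((k : ℝ) / M)‖ ^ 2 : ℝ)) : ℂ) = ((M * ∑ a ∈ I, ‖G a‖ ^ 2 : ℝ) : ℂ) := by
    have e : ∀ k ∈ range M, ‖ht I G ((k : ℝ) / M)‖ ^ 2 = ‖∑ i ∈ I, G i * ee ((k : ℝ) * ((i : ℝ) / M))‖ ^ 2 := by
      intro k _
      unfold ht
      congr 2
      apply sum_congr rfl
      intro i _
      congr 2
      ring
    rw [sum_congr rfl e, h1]
    push_cast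
    rfl
  exact_mod_cast h3

lemma ht_mul (s s' T : Finset ℤ) (f g : ℤ → ℂ) (α : ℝ) (hT : ∀ a ∈ s, ∀ b ∈ s', a + b ∈ T) :
    ht s f α * ht s' g α = ht T (cv s s' f g) α := by
  unfold ht
  rw [sum_mul_sum, ← sum_product', ← sum_fiberwise_of_maps_to (s := s ×ˢ s') (t := T) (g := fun p => p.1 + p.2)]
  · apply sum_congr rfl
    intro t _
    unfold cv
    rw [sum_mul]
    apply sum_congr rfl
    intro p hp
    rw [mem_filter] at hp
    have e : ee ((t : ℝ) * α) = ee ((p.1 : ℝ) * α) * ee ((p.2 : ℝ) * α) := by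
      rw [← ee_add, ← hp.2]
      congr 1
      push_cast
      ring
    rw [e]
    ring
  · intro p hp
    rw [mem_product] at hp
    exact hT _ hp.1 _ hp.2

lemma ee_re (x : ℝ) : (ee x).re = Real.cos (2 * Real.pi * x) := by
  rw [ee_eq, Complex.exp_ofReal_mul_I_re]

lemma kern (H : ℕ) (β : ℝ) (hβ : |β| * (6 * H) ≤ 1) : (H : ℝ) / 2 ≤ ‖∑ j ∈ range H, ee (j * β)‖ := by
  have h1 : ∀ j ∈ range H, (1 : ℝ) / 2 ≤ (ee ((j : ℝ) * β)).re := by
    intro j hj
    rw [mem_range] at hj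
    rw [ee_re, ← Real.cos_pi_div_three, ← Real.cos_abs (2 * Real.pi * ((j : ℝ) * β))]
    have hpi := Real.pi_pos
    apply Real.cos_le_cos_of_nonneg_of_le_pi (abs_nonneg _) (by linarith)
    rw [abs_mul (2 * Real.pi), abs_mul (j : ℝ), abs_of_pos (show 0 < 2 * Real.pi by positivity), abs_of_nonneg (Nat.cast_nonneg j : (0 : ℝ) ≤ j)]
    have h2 : (j : ℝ) * |β| ≤ H * |β| := by
      have : (j : ℝ) ≤ H := by exact_mod_cast hj.le
      exact mul_le_mul_of_nonneg_right this (abs_nonneg _)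
    have h3 : (H : ℝ) * |β| ≤ 1 / 6 := by linarith
    calc 2 * Real.pi * ((j : ℝ) * |β|) ≤ 2 * Real.pi * (1 / 6) := by
          apply mul_le_mul_of_nonneg_left (h2.trans h3) (by positivity)
      _ = Real.pi / 3 := by ring
  have h2 : ∑ j ∈ range H, (1 : ℝ) / 2 ≤ ∑ j ∈ range H, (ee ((j : ℝ) * β)).re := sum_le_sum h1
  rw [sum_const, card_range, nsmul_eq_mul, ← Complex.re_sum] at h2
  have h3 := Complex.re_le_norm (∑ j ∈ range H, ee ((j : ℝ) * β))
  linarith

/-- residue classes -/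
lemma cls (S : Finset ℤ) (a : ℤ → ℝ) (q : ℕ) (hq : 1 ≤ q) (c : ℤ) :
    ‖∑ n ∈ S, (a n : ℂ) * ee (n * ((c : ℝ) / q))‖ ^ 2 ≤
      q * ∑ r ∈ range q, (∑ n ∈ S.filter (fun n => n % (q : ℤ) = (r : ℤ)), a n) ^ 2 := by
  have hq0 : (q : ℤ) ≠ 0 := by omega
  have hqr : (q : ℝ) ≠ 0 := by exact_mod_cast (by omega : q ≠ 0)
  have h1 : ∑ n ∈ S, (a n : ℂ) * ee (n * ((c : ℝ) / q)) =
      ∑ r ∈ range q, ee ((r : ℝ) * ((c : ℝ) / q)) * ((∑ n ∈ S.filter (fun n => n % (q : ℤ) = (r : ℤ)), a n : ℝ) : ℂ) := by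
    rw [← sum_fiberwise_of_maps_to (s := S) (t := range q) (g := fun n => (n % (q : ℤ)).toNat)]
    · apply sum_congr rfl
      intro r hr
      rw [mem_range] at hr
      push_cast
      rw [mul_sum]
      have e1 : S.filter (fun n => (n % (q : ℤ)).toNat = r) = S.filter (fun n => n % (q : ℤ) = (r : ℤ)) := by
        apply filter_congr
        intro n _
        have := Int.emod_nonneg n hq0
        constructor <;> intro h <;> omega
      rw [e1]
      apply sum_congr rfl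
      intro n hn
      rw [mem_filter] at hn
      have e2 : (n : ℝ) * ((c : ℝ) / q) = (r : ℝ) * ((c : ℝ) / q) + ((n / (q : ℤ) * c : ℤ) : ℝ) := by
        have h3 : (n : ℝ) = (q : ℝ) * ((n / (q : ℤ) : ℤ) : ℝ) + r := by
          have := Int.mul_ediv_add_emod n (q : ℤ)
          rw [hn.2] at this
          exact_mod_cast this.symm
        push_cast
        nth_rewrite 1 [h3]
        field_simp
        ring
      rw [e2, ee_add, ee_int, mul_one, mul_comm]
    · intro n _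
      rw [mem_range]
      have h2 := Int.emod_nonneg n hq0
      have h3 := Int.emod_lt_of_pos n (show (0 : ℤ) < q by omega)
      omega
  rw [h1]
  have h2 : ‖∑ r ∈ range q, ee ((r : ℝ) * ((c : ℝ) / q)) * ((∑ n ∈ S.filter (fun n => n % (q : ℤ) = (r : ℤ)), a n : ℝ) : ℂ)‖ ≤
      ∑ r ∈ range q, |∑ n ∈ S.filter (fun n => n % (q : ℤ) = (r : ℤ)), a n| := by
    refine (norm_sum_le _ _).trans (le_of_eq ?_)
    apply sum_congr rfl
    intro r _
    rw [norm_mul, norm_ee, one_mul, Complex.norm_real, Real.norm_eq_abs]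
  refine (pow_le_pow_left₀ (norm_nonneg _) h2 2).trans ?_
  refine sq_sum_le_card_mul_sum_sq.trans (le_of_eq ?_)
  rw [card_range]
  congr 1
  apply sum_congr rfl
  intro r _
  rw [sq_abs]

/-- the mean square over an arc around `c / q` -/
lemma arc (X H M q : ℕ) (c : ℤ) (hH : 1 ≤ H) (hM : X + H + 1 ≤ M) (hq : 1 ≤ q) (a : ℤ → ℝ)
    (ha : ∀ n : ℤ, n ≤ 0 ∨ (X : ℤ) < n → a n = 0) :
    ∑ k ∈ (range M).filter (fun k : ℕ => |(k : ℝ) / M - c / q| * (6 * H) ≤ 1),
      ‖ht (Ioc 0 (X : ℤ)) (fun n => (a n : ℂ)) ((k : ℝ) / M)‖ ^ 2 ≤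
      4 / (H : ℝ) ^ 2 * (M * (q * ∑ t ∈ Icc (0 : ℤ) (X + H), NN a (t - H) H q)) := by
  classical
  have hH0 : (0 : ℝ) < H := by exact_mod_cast hH
  set f : ℤ → ℂ := fun j => ee (-(j * ((c : ℝ) / q))) with hf
  set g : ℤ → ℂ := fun n => (a n : ℂ) with hg
  set s : Finset ℤ := Ico 0 (H : ℤ) with hs
  set s' : Finset ℤ := Ioc 0 (X : ℤ) with hs'
  set T : Finset ℤ := Icc 0 ((X : ℤ) + H) with hT
  have hker : ∀ α : ℝ, ht s f α = ∑ j ∈ range H, ee ((j : ℝ) * (α - c / q)) := by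
    intro α
    unfold ht
    rw [hs, hf]
    symm
    apply sum_nbij' (fun j : ℕ => (j : ℤ)) (fun j : ℤ => j.toNat)
    · intro j hj; rw [mem_range] at hj; rw [mem_Ico]; omega
    · intro j hj; rw [mem_Ico] at hj; rw [mem_range]; omega
    · intro j _; simp
    · intro j hj; rw [mem_Ico] at hj; exact Int.toNat_of_nonneg hj.1
    · intro j _
      rw [← ee_add]
      congr 1
      push_cast
      ring
  have h1 : ∀ k ∈ (range M).filter (fun k : ℕ => |(k : ℝ) / M - c / q| * (6 * H) ≤ 1),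
      ‖ht s' g ((k : ℝ) / M)‖ ^ 2 ≤ 4 / (H : ℝ) ^ 2 * ‖ht T (cv s s' f g) ((k : ℝ) / M)‖ ^ 2 := by
    intro k hk
    rw [mem_filter] at hk
    have h2 := kern H _ hk.2
    rw [← hker] at h2
    rw [← ht_mul s s' T f g ((k : ℝ) / M) (by
      intro x hx y hy
      rw [hs, mem_Ico] at hx
      rw [hs', mem_Ioc] at hy
      rw [hT, mem_Icc]
      omega), norm_mul, mul_pow]
    have h3 : ((H : ℝ) / 2) ^ 2 ≤ ‖ht s f ((k : ℝ) / M)‖ ^ 2 := pow_le_pow_left₀ (by positivity) h2 2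
    have h4 : 1 ≤ 4 / (H : ℝ) ^ 2 * ‖ht s f ((k : ℝ) / M)‖ ^ 2 := by
      rw [div_mul_eq_mul_div, le_div_iff₀ (by positivity)]
      nlinarith
    calc ‖ht s' g ((k : ℝ) / M)‖ ^ 2 = 1 * ‖ht s' g ((k : ℝ) / M)‖ ^ 2 := (one_mul _).symm
      _ ≤ (4 / (H : ℝ) ^ 2 * ‖ht s f ((k : ℝ) / M)‖ ^ 2) * ‖ht s' g ((k : ℝ) / M)‖ ^ 2 :=
          mul_le_mul_of_nonneg_right h4 (by positivity)
      _ = _ := by ring
  refine (sum_le_sum h1).trans ?_
  rw [← mul_sum]
  apply mul_le_mul_of_nonneg_left _ (by positivity)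
  refine (sum_le_sum_of_subset_of_nonneg (filter_subset _ _) (fun _ _ _ => by positivity)).trans ?_
  rw [pars T M (by omega) (by
    intro x hx y hy
    rw [hT, mem_Icc] at hx hy
    rw [abs_lt]
    constructor <;> omega)]
  apply mul_le_mul_of_nonneg_left _ (Nat.cast_nonneg M)
  rw [mul_sum]
  apply sum_le_sum
  intro t _
  have h5 : cv s s' f g t = ee (-(t * ((c : ℝ) / q))) * ∑ n ∈ Ioc (t - H) t, (a n : ℂ) * ee (n * ((c : ℝ) / q)) := by
    have e1 : ∑ n ∈ Ioc (t - H) t, (a n : ℂ) * ee (n * ((c : ℝ) / q)) =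
        ∑ n ∈ (Ioc (t - H) t).filter (fun n => n ∈ s'), (a n : ℂ) * ee (n * ((c : ℝ) / q)) := by
      rw [sum_filter]
      apply sum_congr rfl
      intro n _
      split_ifs with h
      · rfl
      · rw [ha n, Complex.ofReal_zero, zero_mul]
        rw [hs', mem_Ioc] at h
        by_contra hc
        push Not at hc
        exact h ⟨hc.1, hc.2⟩
    rw [e1, mul_sum]
    unfold cv
    apply sum_nbij' (fun p : ℤ × ℤ => p.2) (fun n => (t - n, n))
    · intro p hp
      rw [mem_filter, mem_product, hs, mem_Ico] at hp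
      rw [mem_filter, mem_Ioc]
      refine ⟨⟨by omega, by omega⟩, hp.1.2⟩
    · intro n hn
      rw [mem_filter, mem_Ioc] at hn
      rw [mem_filter, mem_product, hs, mem_Ico]
      refine ⟨⟨⟨by simp only; omega, by simp only; omega⟩, hn.2⟩, by simp only; omega⟩
    · intro p hp
      rw [mem_filter] at hp
      rw [← hp.2]
      simp
    · intro n _
      rfl
    · intro p hp
      rw [mem_filter] at hp
      rw [hf, hg]
      simp only
      have e2 : ee (-((p.1 : ℝ) * ((c : ℝ) / q))) = ee (-((t : ℝ) * ((c : ℝ) / q))) * ee ((p.2 : ℝ) * ((c : ℝ) / q)) := by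
        rw [← ee_add, ← hp.2]
        congr 1
        push_cast
        ring
      rw [e2]
      ring
  rw [h5, norm_mul, norm_ee, one_mul]
  have h6 := cls (Ioc (t - H) t) a q hq c
  unfold NN
  rw [sub_add_cancel]
  exact h6

end Pool.Agent.H561.CM
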