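import Pool.Agent.H561.CM.A1

set_option autoImplicit false

/-! The circle method in mean square: assembly. -/

namespace Pool.Agent.H561.CM

open Finset
open Pool.Agent.H807R2.Dav (ee norm_ee ee_add ee_int ee_zero ee_eq)
open Pool.Agent.helper24_UT (NN)

/-- the convolution with a function that vanishes outside of `(0, X]` -/
lemma cv_eq (X P : ℕ) (b a : ℤ → ℝ) (ha : ∀ n : ℤ, n ≤ 0 ∨ (X : ℤ) < n → a n = 0) (t : ℤ) :
    cv (Ioc 0 (P : ℤ)) (Ioc 0 (X : ℤ)) (fun n => (b n : ℂ)) (fun n => (a n : ℂ)) t =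
      ((∑ m ∈ Ioc 0 (P : ℤ), b m * a (t - m) : ℝ) : ℂ) := by
  classical
  have e1 : ∑ m ∈ Ioc 0 (P : ℤ), b m * a (t - m) =
      ∑ m ∈ (Ioc 0 (P : ℤ)).filter (fun m => t - m ∈ Ioc 0 (X : ℤ)), b m * a (t - m) := by
    rw [sum_filter]
    apply sum_congr rfl
    intro m _
    split_ifs with h
    · rfl
    · rw [mem_Ioc] at h
      rw [ha (t - m), mul_zero]
      by_contra hc
      push Not at hc
      exact h ⟨hc.1, hc.2⟩
  rw [e1]
  push_cast
  unfold cv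
  apply sum_nbij' (fun p : ℤ × ℤ => p.1) (fun m => (m, t - m))
  · intro p hp
    rw [mem_filter, mem_product] at hp
    rw [mem_filter]
    refine ⟨hp.1.1, ?_⟩
    rw [← hp.2]
    simpa using hp.1.2
  · intro m hm
    rw [mem_filter] at hm
    rw [mem_filter, mem_product]
    exact ⟨hm, by simp only; omega⟩
  · intro p hp
    rw [mem_filter] at hp
    rw [← hp.2]
    simp
  · intro m _
    rfl
  · intro p hp
    rw [mem_filter] at hp
    rw [← hp.2]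
    simp

/-- **The circle method in mean square.** -/
theorem circ (X P H V : ℕ) (hH : 1 ≤ H) (hHP : H ≤ P) (b a : ℤ → ℝ)
    (ha : ∀ n : ℤ, n ≤ 0 ∨ (X : ℤ) < n → a n = 0) (δ F D : ℝ)
    (hb : ∀ α : ℝ, ‖ht (Ioc 0 (P : ℤ)) (fun n => (b n : ℂ)) α‖ ≤ F)
    (hdich : ∀ α : ℝ, 0 ≤ α → α < 1 → ‖ht (Ioc 0 (P : ℤ)) (fun n => (b n : ℂ)) α‖ ≤ δ ∨
      ∃ q ∈ Icc 1 V, ∃ c ∈ range (q + 1), |α - (c : ℝ) / q| * (6 * H) ≤ 1)
    (hD : ∀ q ∈ Icc 1 V, ∑ t ∈ Icc (0 : ℤ) (X + H), NN a (t - H) H q ≤ D) :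
    ∑ t ∈ Icc (0 : ℤ) (X + P), (∑ m ∈ Ioc 0 (P : ℤ), b m * a (t - m)) ^ 2 ≤
      δ ^ 2 * ∑ n ∈ Ioc 0 (X : ℤ), a n ^ 2 + F ^ 2 * (4 / (H : ℝ) ^ 2 * ((V : ℝ) * V * (V + 1)) * D) := by
  classical
  obtain ⟨M, hM⟩ : ∃ M, M = X + P + 1 := ⟨_, rfl⟩
  have hM0 : (0 : ℝ) < M := by exact_mod_cast (by omega : 0 < M)
  have hH0 : (0 : ℝ) < H := by exact_mod_cast hH
  set s := Ioc 0 (P : ℤ) with hs
  set s' := Ioc 0 (X : ℤ) with hs'
  set T := Icc (0 : ℤ) (X + P) with hT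
  set bc : ℤ → ℂ := fun n => (b n : ℂ) with hbc
  set ac : ℤ → ℂ := fun n => (a n : ℂ) with hac
  have h1 : ∑ k ∈ range M, ‖ht T (cv s s' bc ac) ((k : ℝ) / M)‖ ^ 2 =
      M * ∑ t ∈ T, (∑ m ∈ s, b m * a (t - m)) ^ 2 := by
    rw [pars T M (by omega) (by
      intro x hx y hy
      rw [hT, mem_Icc] at hx hy
      rw [abs_lt]
      constructor <;> omega)]
    congr 1
    apply sum_congr rfl
    intro t _
    rw [cv_eq X P b a ha t, Complex.norm_real, Real.norm_eq_abs, sq_abs]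
  have h2 : ∀ k ∈ range M, ‖ht T (cv s s' bc ac) ((k : ℝ) / M)‖ ^ 2 ≤
      δ ^ 2 * ‖ht s' ac ((k : ℝ) / M)‖ ^ 2 + F ^ 2 * ∑ q ∈ Icc 1 V, ∑ c ∈ range (q + 1),
        (if |(k : ℝ) / M - ((c : ℤ) : ℝ) / q| * (6 * H) ≤ 1 then ‖ht s' ac ((k : ℝ) / M)‖ ^ 2 else 0) := by
    intro k hk
    rw [mem_range] at hk
    rw [← ht_mul s s' T bc ac ((k : ℝ) / M) (by
      intro x hx y hy
      rw [hs, mem_Ioc] at hx
      rw [hs', mem_Ioc] at hy
      rw [hT, mem_Icc]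
      omega), norm_mul, mul_pow]
    set y := ‖ht s' ac ((k : ℝ) / M)‖ ^ 2 with hy
    have hy0 : 0 ≤ y := by positivity
    have hk1 : (k : ℝ) / M < 1 := by
      rw [div_lt_one hM0]
      exact_mod_cast hk
    have hnn : 0 ≤ ∑ q ∈ Icc 1 V, ∑ c ∈ range (q + 1),
        (if |(k : ℝ) / M - ((c : ℤ) : ℝ) / q| * (6 * H) ≤ 1 then y else 0) := by
      apply sum_nonneg
      intro q _
      apply sum_nonneg
      intro c _
      split_ifs
      · exact hy0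
      · exact le_rfl
    rcases hdich ((k : ℝ) / M) (by positivity) hk1 with h | ⟨q, hq, c, hc, hqc⟩
    · have h3 : ‖ht s bc ((k : ℝ) / M)‖ ^ 2 ≤ δ ^ 2 := pow_le_pow_left₀ (norm_nonneg _) h 2
      have h4 := mul_le_mul_of_nonneg_right h3 hy0
      have h5 : 0 ≤ F ^ 2 * ∑ q ∈ Icc 1 V, ∑ c ∈ range (q + 1),
        (if |(k : ℝ) / M - ((c : ℤ) : ℝ) / q| * (6 * H) ≤ 1 then y else 0) := by positivity
      linarith
    · have h3 : ‖ht s bc ((k : ℝ) / M)‖ ^ 2 ≤ F ^ 2 := pow_le_pow_left₀ (norm_nonneg _) (hb _) 2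
      have h4 := mul_le_mul_of_nonneg_right h3 hy0
      have h6 : y ≤ ∑ q ∈ Icc 1 V, ∑ c ∈ range (q + 1),
          (if |(k : ℝ) / M - ((c : ℤ) : ℝ) / q| * (6 * H) ≤ 1 then y else 0) := by
        have h7 : y = (if |(k : ℝ) / M - ((c : ℤ) : ℝ) / q| * (6 * H) ≤ 1 then y else 0) := by
          rw [if_pos]
          rw [Int.cast_natCast]
          exact hqc
        have h8 : (if |(k : ℝ) / M - ((c : ℤ) : ℝ) / q| * (6 * H) ≤ 1 then y else 0) ≤
            ∑ c ∈ range (q + 1), (if |(k : ℝ) / M - ((c : ℤ) : ℝ) / q| * (6 * H) ≤ 1 then y else 0) :=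
          single_le_sum (f := fun c : ℕ => (if |(k : ℝ) / M - ((c : ℤ) : ℝ) / q| * (6 * H) ≤ 1 then y else 0))
            (fun c _ => by
              split_ifs
              · exact hy0
              · exact le_rfl) hc
        have h9 : ∑ c ∈ range (q + 1), (if |(k : ℝ) / M - ((c : ℤ) : ℝ) / q| * (6 * H) ≤ 1 then y else 0) ≤
            ∑ q ∈ Icc 1 V, ∑ c ∈ range (q + 1), (if |(k : ℝ) / M - ((c : ℤ) : ℝ) / q| * (6 * H) ≤ 1 then y else 0) :=
          single_le_sum (f := fun q : ℕ => ∑ c ∈ range (q + 1), (if |(k : ℝ) / M - ((c : ℤ) : ℝ) / q| * (6 * H) ≤ 1 then y else 0))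
            (fun q _ => sum_nonneg fun c _ => by
              split_ifs
              · exact hy0
              · exact le_rfl) hq
        linarith
      have h7 := mul_le_mul_of_nonneg_left h6 (sq_nonneg F)
      have h8 : 0 ≤ δ ^ 2 * y := by positivity
      linarith
  have h3 := sum_le_sum h2
  rw [h1, sum_add_distrib, ← mul_sum, ← mul_sum, pars s' M (by omega) (by
      intro x hx y hy
      rw [hs', mem_Ioc] at hx hy
      rw [abs_lt]
      constructor <;> omega), sum_comm] at h3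
  have h4 : ∀ q ∈ Icc 1 V, ∑ k ∈ range M, ∑ c ∈ range (q + 1),
      (if |(k : ℝ) / M - ((c : ℤ) : ℝ) / q| * (6 * H) ≤ 1 then ‖ht s' ac ((k : ℝ) / M)‖ ^ 2 else 0) ≤
      4 / (H : ℝ) ^ 2 * M * D * (V * (V + 1)) := by
    intro q hq
    have hq' := mem_Icc.1 hq
    rw [sum_comm]
    have hqV : (q : ℝ) ≤ V := by exact_mod_cast hq'.2
    have hq0 : (0 : ℝ) ≤ q := Nat.cast_nonneg q
    have hD0 : 0 ≤ D := by
      refine le_trans ?_ (hD q hq)
      apply sum_nonneg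
      intro t _
      unfold NN
      positivity
    have h5 : ∀ c ∈ range (q + 1), ∑ k ∈ range M,
        (if |(k : ℝ) / M - ((c : ℤ) : ℝ) / q| * (6 * H) ≤ 1 then ‖ht s' ac ((k : ℝ) / M)‖ ^ 2 else 0) ≤
        4 / (H : ℝ) ^ 2 * M * D * V := by
      intro c _
      rw [← sum_filter]
      refine (arc X H M q (c : ℤ) hH (by omega) hq'.1 a ha).trans ?_
      have h6 : (q : ℝ) * ∑ t ∈ Icc (0 : ℤ) (X + H), NN a (t - H) H q ≤ V * D := by
        apply mul_le_mul hqV (hD q hq) _ (Nat.cast_nonneg V)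
        apply sum_nonneg
        intro t _
        unfold NN
        positivity
      calc 4 / (H : ℝ) ^ 2 * (M * (q * ∑ t ∈ Icc (0 : ℤ) (X + H), NN a (t - H) H q))
          ≤ 4 / (H : ℝ) ^ 2 * (M * (V * D)) := by gcongr
        _ = _ := by ring
    refine (sum_le_sum h5).trans ?_
    rw [sum_const, card_range, nsmul_eq_mul]
    push_cast
    calc ((q : ℝ) + 1) * (4 / (H : ℝ) ^ 2 * M * D * V) ≤ ((V : ℝ) + 1) * (4 / (H : ℝ) ^ 2 * M * D * V) := by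
          gcongr
      _ = _ := by ring
  have h5 := sum_le_sum h4
  rw [sum_const, Nat.card_Icc, Nat.add_sub_cancel, nsmul_eq_mul] at h5
  have h6 := mul_le_mul_of_nonneg_left h5 (sq_nonneg F)
  have h7 : (M : ℝ) * ∑ t ∈ T, (∑ m ∈ s, b m * a (t - m)) ^ 2 ≤
      M * (δ ^ 2 * ∑ n ∈ s', a n ^ 2 + F ^ 2 * (4 / (H : ℝ) ^ 2 * ((V : ℝ) * V * (V + 1)) * D)) := by
    have e1 : ∑ n ∈ s', ‖ac n‖ ^ 2 = ∑ n ∈ s', a n ^ 2 := by
      apply sum_congr rfl
      intro n _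
      rw [hac]
      simp only
      rw [Complex.norm_real, Real.norm_eq_abs, sq_abs]
    rw [e1] at h3
    calc (M : ℝ) * ∑ t ∈ T, (∑ m ∈ s, b m * a (t - m)) ^ 2 ≤ _ := h3
      _ ≤ δ ^ 2 * (M * ∑ n ∈ s', a n ^ 2) + F ^ 2 * (V * (4 / (H : ℝ) ^ 2 * M * D * (V * (V + 1)))) := by
          linarith
      _ = _ := by ring
  exact le_of_mul_le_mul_left h7 hM0

end Pool.Agent.H561.CM
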