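import Pool.Agent.H561.CM.A2
import Pool.Graph.R_seed8.W93.MC

set_option autoImplicit false

/-! Minor arcs for the von Mangoldt function in an interval. -/

namespace Pool.Agent.H561.CM

open Finset
open Pool.Agent.H807R2.Dav (ee norm_ee ee_add ee_int ee_zero ee_eq)
open Pool.Agent.H373R2.T7 (ev_log' ev_L')
open Pool.Agent.helper24_UT (NN)

/-- the sum over an initial segment -/
noncomputable def Sg (y : ℕ) (α : ℝ) : ℂ :=
  ∑ n ∈ Icc 1 y, ((ArithmeticFunction.vonMangoldt n : ℝ) : ℂ) * ee ((n : ℝ) * α)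

lemma Sg_triv (y P : ℕ) (hy : y ≤ P) (α : ℝ) : ‖Sg y α‖ ≤ y * Real.log P := by
  unfold Sg
  refine (norm_sum_le _ _).trans ?_
  have h1 : ∀ n ∈ Icc 1 y, ‖((ArithmeticFunction.vonMangoldt n : ℝ) : ℂ) * ee ((n : ℝ) * α)‖ ≤ Real.log P := by
    intro n hn
    rw [mem_Icc] at hn
    rw [norm_mul, norm_ee, mul_one, Complex.norm_real, Real.norm_of_nonneg ArithmeticFunction.vonMangoldt_nonneg]
    refine ArithmeticFunction.vonMangoldt_le_log.trans ?_
    apply Real.log_le_log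
    · exact_mod_cast hn.1
    · exact_mod_cast hn.2.trans hy
  refine (sum_le_sum h1).trans ?_
  rw [sum_const, Nat.card_Icc, Nat.add_sub_cancel, nsmul_eq_mul]

/-- the minor arcs, all initial segments -/
theorem minor_seg (A₁ : ℕ) : ∃ P₀ : ℕ, ∀ P : ℕ, P₀ ≤ P → ∀ V : ℕ, Real.log P ^ (3 * A₁ + 17) ≤ V → V ^ 5 ≤ P →
    ∀ (α : ℝ) (q : ℕ) (c : ℤ), V < q → q * V ≤ P → IsCoprime c (q : ℤ) → |α - c / q| ≤ 1 / (q : ℝ) ^ 2 →
    ∀ y : ℕ, y ≤ P → ‖Sg y α‖ ≤ P / Real.log P ^ A₁ := by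
  obtain ⟨N0, h0⟩ := Pool.Agent.W93.DG.minor_quant
  obtain ⟨n1, h1⟩ := ev_L' 200000
  obtain ⟨n2, h2⟩ := ev_log' (A₁ + 1) 1
  refine ⟨N0 ^ 2 + n1 + n2 + 4, fun P hP V hV hV5 α q c hVq hqV hc hα y hy => ?_⟩
  have hL := h1 P (by omega)
  have hT := h2 P (by omega)
  have hP4 : 4 ≤ P := by omega
  have hPr : (4 : ℝ) ≤ P := by exact_mod_cast hP4
  have hP0 : (0 : ℝ) < P := by linarith
  obtain ⟨ℓ, hℓ⟩ : ∃ ℓ, ℓ = Real.log P := ⟨_, rfl⟩
  rw [← hℓ] at hL hT hV ⊢
  have hℓ0 : 0 < ℓ := by linarith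
  have hℓ1 : 1 ≤ ℓ := by linarith
  have hTp : 0 < ℓ ^ (A₁ + 1) := by positivity
  rcases lt_or_ge (y : ℝ) (P / ℓ ^ (A₁ + 1)) with hlt | hge
  · refine (Sg_triv y P hy α).trans ?_
    rw [← hℓ]
    calc (y : ℝ) * ℓ ≤ P / ℓ ^ (A₁ + 1) * ℓ := mul_le_mul_of_nonneg_right hlt.le hℓ0.le
      _ = P / ℓ ^ A₁ := by
          rw [pow_succ]
          field_simp
  · have hV0 : (0 : ℝ) < V := lt_of_lt_of_le (by positivity) hV
    have hV1 : 1 ≤ V := by exact_mod_cast hV0
    have hVT : ℓ ^ (A₁ + 1) ≤ V := (pow_le_pow_right₀ hℓ1 (by omega)).trans hV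
    have hsq : √(P : ℝ) * √(P : ℝ) = P := Real.mul_self_sqrt hP0.le
    have hs0 : 0 < √(P : ℝ) := Real.sqrt_pos.2 hP0
    have hys : √(P : ℝ) ≤ y := by
      refine le_trans ?_ hge
      rw [le_div_iff₀ hTp]
      calc √(P : ℝ) * ℓ ^ (A₁ + 1) ≤ √(P : ℝ) * √(P : ℝ) := by
            apply mul_le_mul_of_nonneg_left _ hs0.le
            linarith
        _ = P := hsq
    have hyN : N0 ≤ y := by
      have e1 : (N0 : ℝ) ≤ √(P : ℝ) := by
        apply Real.le_sqrt_of_sq_le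
        exact_mod_cast (by omega : N0 ^ 2 ≤ P)
      exact_mod_cast e1.trans hys
    have hy0 : (0 : ℝ) < y := lt_of_lt_of_le hs0 hys
    have hPV5 : (V : ℝ) ^ 5 ≤ P := by exact_mod_cast hV5
    have hyV : (V * V) * (V * V) ≤ y := by
      have e1 : ((V : ℝ) * V) * (V * V) ≤ y := by
        refine le_trans ?_ hge
        rw [le_div_iff₀ hTp]
        calc ((V : ℝ) * V) * (V * V) * ℓ ^ (A₁ + 1) ≤ ((V : ℝ) * V) * (V * V) * V := by gcongr
          _ = (V : ℝ) ^ 5 := by ring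
          _ ≤ P := hPV5
      exact_mod_cast e1
    have hqVr : (q : ℝ) * V ≤ P := by exact_mod_cast hqV
    have hq0 : (0 : ℝ) < q := by exact_mod_cast (by omega : 0 < q)
    have hqy : (q : ℝ) ≤ y := by
      refine le_trans ?_ hge
      rw [le_div_iff₀ hTp]
      calc (q : ℝ) * ℓ ^ (A₁ + 1) ≤ q * V := by gcongr
        _ ≤ P := hqVr
    have hqy' : q ≤ y := by exact_mod_cast hqy
    have hm := h0 y hyN V q hV1 hyV (by omega) hqy' c hc α hα
    have e0 : ∑ n ∈ Icc 1 y, ((ArithmeticFunction.vonMangoldt n : ℝ) : ℂ) * ee ((n : ℝ) * α) = Sg y α := rfl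
    rw [e0] at hm
    refine hm.trans ?_
    have hly : Real.log y ≤ ℓ := by
      rw [hℓ]
      exact Real.log_le_log hy0 (by exact_mod_cast hy)
    have hly0 : 0 ≤ Real.log y := Real.log_nonneg (by
      have : 1 ≤ y := by exact_mod_cast hy0
      exact_mod_cast this)
    have b1 : 1 / (q : ℝ) ≤ 1 / V := by
      apply one_div_le_one_div_of_le hV0
      exact_mod_cast hVq.le
    have b2 : (q : ℝ) / y ≤ ℓ ^ (A₁ + 1) / V := by
      rw [div_le_div_iff₀ hy0 hV0]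
      have : (P : ℝ) ≤ ℓ ^ (A₁ + 1) * y := by
        have hge' := (div_le_iff₀ hTp).1 hge
        linarith
      linarith
    have b3 : 1 / (V : ℝ) ≤ ℓ ^ (A₁ + 1) / V := by
      apply div_le_div_of_nonneg_right _ hV0.le
      exact one_le_pow₀ hℓ1
    have b4 : ℓ ^ (A₁ + 1) / V ≤ 1 / (ℓ ^ (A₁ + 8)) ^ 2 := by
      rw [div_le_div_iff₀ hV0 (by positivity), one_mul]
      refine le_trans (le_of_eq ?_) hV
      rw [← pow_mul, ← pow_add]
      congr 1
      ring
    have b5 : √(1 / (q : ℝ) + 1 / V + q / y) ≤ 2 / ℓ ^ (A₁ + 8) := by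
      apply Real.sqrt_le_iff.2
      refine ⟨by positivity, ?_⟩
      have : (2 / ℓ ^ (A₁ + 8)) ^ 2 = 4 * (1 / (ℓ ^ (A₁ + 8)) ^ 2) := by ring
      rw [this]
      have : 0 ≤ 1 / (ℓ ^ (A₁ + 8)) ^ 2 := by positivity
      linarith
    calc 100000 * Real.log y ^ 7 * (y * √(1 / (q : ℝ) + 1 / V + q / y))
        ≤ 100000 * ℓ ^ 7 * (P * (2 / ℓ ^ (A₁ + 8))) := by
          have : (y : ℝ) ≤ P := by exact_mod_cast hy
          gcongr
      _ = (200000 / ℓ) * (P / ℓ ^ A₁) := by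
          rw [pow_add]
          field_simp
          ring
      _ ≤ 1 * (P / ℓ ^ A₁) := by
          apply mul_le_mul_of_nonneg_right _ (by positivity)
          rw [div_le_one hℓ0]
          exact hL
      _ = P / ℓ ^ A₁ := one_mul _

/-- the von Mangoldt function on an interval, extended to the integers -/
noncomputable def lw (u v : ℕ) (m : ℤ) : ℝ :=
  if (u : ℤ) < m ∧ m ≤ v then ArithmeticFunction.vonMangoldt m.toNat else 0

lemma lw_nonneg (u v : ℕ) (m : ℤ) : 0 ≤ lw u v m := by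
  unfold lw
  split_ifs
  · exact ArithmeticFunction.vonMangoldt_nonneg
  · exact le_rfl

lemma ht_lw (u v P : ℕ) (huv : u ≤ v) (hv : v ≤ P) (α : ℝ) :
    ht (Ioc 0 (P : ℤ)) (fun n => (lw u v n : ℂ)) α = Sg v α - Sg u α := by
  classical
  unfold ht
  have h1 : Sg v α = Sg u α + ∑ n ∈ Ioc u v, ((ArithmeticFunction.vonMangoldt n : ℝ) : ℂ) * ee ((n : ℝ) * α) := by
    unfold Sg
    have : Icc 1 v = Icc 1 u ∪ Ioc u v := by
      ext n
      simp only [mem_union, mem_Icc, mem_Ioc]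
      omega
    rw [this, sum_union]
    rw [disjoint_left]
    intro n hn hn'
    rw [mem_Icc] at hn
    rw [mem_Ioc] at hn'
    omega
  rw [h1, add_sub_cancel_left]
  symm
  have h2 : ∑ n ∈ Ioc 0 (P : ℤ), (lw u v n : ℂ) * ee (n * α) =
      ∑ n ∈ (Ioc 0 (P : ℤ)).filter (fun n => (u : ℤ) < n ∧ n ≤ v), (lw u v n : ℂ) * ee (n * α) := by
    rw [sum_filter]
    apply sum_congr rfl
    intro n _
    split_ifs with h
    · rfl
    · unfold lw
      rw [if_neg h, Complex.ofReal_zero, zero_mul]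
  rw [h2]
  apply sum_nbij' (fun n : ℕ => (n : ℤ)) (fun n : ℤ => n.toNat)
  · intro n hn
    rw [mem_Ioc] at hn
    rw [mem_filter, mem_Ioc]
    omega
  · intro n hn
    rw [mem_filter, mem_Ioc] at hn
    rw [mem_Ioc]
    omega
  · intro n _
    simp
  · intro n hn
    rw [mem_filter, mem_Ioc] at hn
    exact Int.toNat_of_nonneg (by omega)
  · intro n hn
    rw [mem_Ioc] at hn
    unfold lw
    rw [if_pos (by omega), Int.toNat_natCast]
    push_cast
    rfl

/-- the two alternatives -/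
theorem dich (A₁ : ℕ) : ∃ P₀ : ℕ, ∀ P : ℕ, P₀ ≤ P → ∀ V : ℕ, 4 ≤ V → Real.log P ^ (3 * A₁ + 17) ≤ V → V ^ 5 ≤ P →
    ∀ H : ℕ, 6 * H * V ≤ P → ∀ u v : ℕ, u ≤ v → v ≤ P → ∀ α : ℝ, 0 ≤ α → α < 1 →
    ‖ht (Ioc 0 (P : ℤ)) (fun n => (lw u v n : ℂ)) α‖ ≤ 2 * P / Real.log P ^ A₁ ∨
      ∃ q ∈ Icc 1 V, ∃ c ∈ range (q + 1), |α - (c : ℝ) / q| * (6 * H) ≤ 1 := by
  obtain ⟨P₀, h0⟩ := minor_seg A₁
  refine ⟨P₀ + 1, fun P hP V hV4 hV hV5 H hH u v huv hv α hα0 hα1 => ?_⟩
  have hVV : V * V ≤ P := by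
    refine le_trans ?_ hV5
    calc V * V = V ^ 2 := by ring
      _ ≤ V ^ 5 := Nat.pow_le_pow_right (by omega) (by norm_num)
  obtain ⟨q, c, hq, hc, h | h⟩ := Pool.Agent.W93.DG.diri P V (by omega) hVV α
  · right
    obtain ⟨hqV, hq2⟩ := h
    have hq0 : (0 : ℝ) < q := by exact_mod_cast hq
    have hq1 : (1 : ℝ) ≤ q := by exact_mod_cast hq
    have hP0 : (0 : ℝ) < P := by exact_mod_cast (by omega : 0 < P)
    have hV0 : (0 : ℝ) < V := by exact_mod_cast (by omega : 0 < V)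
    have hVP : (V : ℝ) < P := by
      have : V < P := by
        have : V * 4 ≤ V * V := Nat.mul_le_mul_left V hV4
        omega
      exact_mod_cast this
    have hab : 0 ≤ |α - c / q| := abs_nonneg _
    have h2 : |α - c / q| * q < 1 := by
      have e1 : (|α - c / q| * q) * P ≤ V := by linarith
      by_contra hcon
      push Not at hcon
      nlinarith
    have h3 : |α * q - c| < 1 := by
      have e1 : α * q - c = (α - c / q) * q := by field_simp
      rw [e1, abs_mul, abs_of_pos hq0]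
      exact h2
    rw [abs_lt] at h3
    have hαq : 0 ≤ α * q := by positivity
    have hαq1 : α * q < q := by nlinarith
    have hc0 : 0 ≤ c := by
      have : (-1 : ℝ) < c := by linarith
      have : (-1 : ℤ) < c := by exact_mod_cast this
      omega
    have hcq : c ≤ q := by
      have : (c : ℝ) < q + 1 := by linarith
      have : c < (q : ℤ) + 1 := by exact_mod_cast this
      omega
    refine ⟨q, mem_Icc.2 ⟨hq, hqV⟩, c.toNat, by rw [mem_range]; omega, ?_⟩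
    have hcc : ((c.toNat : ℕ) : ℝ) = (c : ℝ) := by
      have : ((c.toNat : ℕ) : ℤ) = c := Int.toNat_of_nonneg hc0
      exact_mod_cast this
    rw [hcc]
    have hHr : 6 * (H : ℝ) * V ≤ P := by exact_mod_cast hH
    have h4 : |α - c / q| * P ≤ V := by
      have : |α - c / q| * P ≤ q * (P * |α - c / q|) := by
        have : 0 ≤ P * |α - c / q| := by positivity
        nlinarith
      linarith
    have h5 : |α - c / q| * (6 * H) * V ≤ 1 * V := by
      calc |α - c / q| * (6 * H) * V = |α - c / q| * (6 * H * V) := by ring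
        _ ≤ |α - c / q| * P := mul_le_mul_of_nonneg_left hHr hab
        _ ≤ 1 * V := by linarith
    exact le_of_mul_le_mul_right h5 hV0
  · left
    obtain ⟨h1, h2, h3⟩ := h
    rw [ht_lw u v P huv hv α]
    refine (norm_sub_le _ _).trans ?_
    have e1 := h0 P (by omega) V hV hV5 α q c h1 h2 hc h3 v hv
    have e2 := h0 P (by omega) V hV hV5 α q c h1 h2 hc h3 u (huv.trans hv)
    have e3 : 2 * (P : ℝ) / Real.log P ^ A₁ = P / Real.log P ^ A₁ + P / Real.log P ^ A₁ := by ring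
    rw [e3]
    exact add_le_add e1 e2

end Pool.Agent.H561.CM
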