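import Pool.Agent.H561.CM.A3
import Pool.Agent.H561.SW.Ch

set_option autoImplicit false

/-! Primes minus their sieve model, convolved with the primes of a short initial interval, in mean square. -/

namespace Pool.Agent.H561.CM

open Finset
open Pool.Agent.H807R2.Dav (ee norm_ee ee_add ee_int ee_zero ee_eq)
open Pool.Agent.H373R2.T7 (lamI lamzI lamz Vz pz mem_pz ev_log' ev_L' lamz_nonneg Vz_pos Vz_inv_small)
open Pool.Agent.helper24_UT (NN Ed)

lemma NN_le (a : ℤ → ℝ) (u : ℤ) (W q : ℕ) (b : ℝ) (hb : 0 ≤ b) (ha : ∀ n, |a n| ≤ b) : NN a u W q ≤ (W * b) ^ 2 := by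
  classical
  unfold NN
  have h1 : ∀ r ∈ range q, (∑ m ∈ (Ioc u (u + W)).filter (fun m => m % (q : ℤ) = (r : ℤ)), a m) ^ 2 ≤
      (∑ m ∈ (Ioc u (u + W)).filter (fun m => m % (q : ℤ) = (r : ℤ)), b) * (W * b) := by
    intro r _
    rw [← sq_abs, sq]
    have h2 : |∑ m ∈ (Ioc u (u + W)).filter (fun m => m % (q : ℤ) = (r : ℤ)), a m| ≤
        ∑ m ∈ (Ioc u (u + W)).filter (fun m => m % (q : ℤ) = (r : ℤ)), b :=
      (abs_sum_le_sum_abs _ _).trans (sum_le_sum fun m _ => ha m)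
    have h3 : ∑ m ∈ (Ioc u (u + W)).filter (fun m => m % (q : ℤ) = (r : ℤ)), b ≤ W * b := by
      rw [sum_const, nsmul_eq_mul]
      apply mul_le_mul_of_nonneg_right _ hb
      have : ((Ioc u (u + W)).filter (fun m => m % (q : ℤ) = (r : ℤ))).card ≤ W := by
        refine (card_filter_le _ _).trans ?_
        rw [Int.card_Ioc]
        omega
      exact_mod_cast this
    exact mul_le_mul h2 (h2.trans h3) (abs_nonneg _) (by positivity)
  refine (sum_le_sum h1).trans ?_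
  rw [← sum_mul, sq]
  apply mul_le_mul_of_nonneg_right _ (by positivity)
  have h4 : ∑ r ∈ range q, ∑ m ∈ (Ioc u (u + W)).filter (fun m => m % (q : ℤ) = (r : ℤ)), b ≤ ∑ m ∈ Ioc u (u + W), b := by
    rw [← sum_biUnion]
    · apply sum_le_sum_of_subset_of_nonneg
      · intro m hm
        rw [mem_biUnion] at hm
        obtain ⟨r, _, hr⟩ := hm
        exact (mem_filter.1 hr).1
      · intro _ _ _
        exact hb
    · intro r _ r' _ hne
      simp only [Function.onFun]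
      rw [disjoint_left]
      intro m hm hm'
      rw [mem_filter] at hm hm'
      apply hne
      have := hm.2.symm.trans hm'.2
      exact_mod_cast this
  refine h4.trans ?_
  rw [sum_const, nsmul_eq_mul, Int.card_Ioc]
  have : ((u + (W : ℤ) - u).toNat) = W := by omega
  rw [this]

lemma Ed_bound (X z : ℕ) (m : ℤ) (hm : m ≤ X) (hV : (Vz z)⁻¹ ≤ Real.log X) (hX : 0 ≤ Real.log X) :
    |Ed z m| ≤ 2 * Real.log X := by
  unfold Ed lamI lamzI
  by_cases h : 1 ≤ m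
  · rw [if_pos h, if_pos h]
    have h1 : (ArithmeticFunction.vonMangoldt m.toNat : ℝ) ≤ Real.log X := by
      refine ArithmeticFunction.vonMangoldt_le_log.trans ?_
      apply Real.log_le_log
      · exact_mod_cast (by omega : 0 < m.toNat)
      · exact_mod_cast (by omega : m.toNat ≤ X)
    have h2 : (0 : ℝ) ≤ ArithmeticFunction.vonMangoldt m.toNat := ArithmeticFunction.vonMangoldt_nonneg
    have h3 : 0 ≤ lamz z m.toNat := lamz_nonneg _ _
    have h4 : lamz z m.toNat ≤ Real.log X := by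
      refine le_trans ?_ hV
      unfold lamz
      split_ifs
      · exact le_rfl
      · exact (inv_pos.2 (Vz_pos z)).le
    rw [abs_le]
    constructor <;> linarith
  · rw [if_neg h, if_neg h, sub_zero, abs_zero]
    linarith

lemma Ed_nonpos (z : ℕ) (m : ℤ) (hm : m ≤ 0) : Ed z m = 0 := by
  unfold Ed lamI lamzI
  rw [if_neg (by omega), if_neg (by omega), sub_zero]

/-- the truncation -/
noncomputable def aa (z X : ℕ) (m : ℤ) : ℝ := if m ≤ X then Ed z m else 0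

lemma aa_supp (z X : ℕ) (n : ℤ) (h : n ≤ 0 ∨ (X : ℤ) < n) : aa z X n = 0 := by
  unfold aa
  rcases h with h | h
  · rw [Ed_nonpos z n h, ite_self]
  · rw [if_neg (by omega)]

lemma aa_bound (X z : ℕ) (m : ℤ) (hV : (Vz z)⁻¹ ≤ Real.log X) (hX : 0 ≤ Real.log X) :
    |aa z X m| ≤ 2 * Real.log X := by
  unfold aa
  split_ifs with h
  · exact Ed_bound X z m h hV hX
  · rw [abs_zero]
    linarith

/-- the mean square over the windows, with the edges -/
lemma win_sum (X H q z : ℕ) (hHX : H ≤ X) (hV : (Vz z)⁻¹ ≤ Real.log X) (hX : 0 ≤ Real.log X) :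
    ∑ t ∈ Icc (0 : ℤ) (X + H), NN (aa z X) (t - H) H q ≤
      ∑ u ∈ range X, NN (Ed z) (u : ℤ) H q + (2 * H + 1) * (H * (2 * Real.log X)) ^ 2 := by
  classical
  set b := (H * (2 * Real.log X)) ^ 2 with hb
  have hb0 : 0 ≤ b := by positivity
  have htriv : ∀ t : ℤ, NN (aa z X) (t - H) H q ≤ b := fun t =>
    NN_le (aa z X) (t - H) H q (2 * Real.log X) (by linarith) (fun n => aa_bound X z n hV hX)
  have hsplit : Icc (0 : ℤ) (X + H) = (Ico (H : ℤ) (X + 1)) ∪ ((Ico (0 : ℤ) H) ∪ (Ioc (X : ℤ) (X + H))) := by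
    ext t
    simp only [mem_Icc, mem_union, mem_Ico, mem_Ioc]
    omega
  have hd1 : Disjoint (Ico (H : ℤ) (X + 1)) ((Ico (0 : ℤ) H) ∪ (Ioc (X : ℤ) (X + H))) := by
    rw [disjoint_left]
    intro t ht ht'
    simp only [mem_union, mem_Ico, mem_Ioc] at ht ht'
    omega
  rw [hsplit, sum_union hd1]
  have h1 : ∑ t ∈ Ico (H : ℤ) (X + 1), NN (aa z X) (t - H) H q ≤ ∑ u ∈ range X, NN (Ed z) (u : ℤ) H q + b := by
    have e1 : ∑ t ∈ Ico (H : ℤ) (X + 1), NN (aa z X) (t - H) H q = ∑ u ∈ range (X + 1 - H), NN (Ed z) (u : ℤ) H q := by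
      symm
      apply sum_nbij' (fun u : ℕ => (u : ℤ) + H) (fun t : ℤ => (t - H).toNat)
      · intro u hu; rw [mem_range] at hu; rw [mem_Ico]; omega
      · intro t ht; rw [mem_Ico] at ht; rw [mem_range]; omega
      · intro u _; simp
      · intro t ht; rw [mem_Ico] at ht; omega
      · intro u hu
        rw [mem_range] at hu
        unfold NN
        rw [add_sub_cancel_right]
        apply sum_congr rfl
        intro r _
        congr 1
        apply sum_congr rfl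
        intro m hm
        rw [mem_filter, mem_Ioc] at hm
        unfold aa
        rw [if_pos (by omega)]
    rw [e1]
    have hnn : ∀ u : ℕ, 0 ≤ NN (Ed z) (u : ℤ) H q := by
      intro u
      unfold NN
      positivity
    rcases Nat.eq_zero_or_pos H with h0 | h0
    · rw [h0, Nat.sub_zero, sum_range_succ]
      have : NN (Ed z) (X : ℤ) 0 q = 0 := by
        unfold NN
        simp
      rw [this]
      linarith
    · have : ∑ u ∈ range (X + 1 - H), NN (Ed z) (u : ℤ) H q ≤ ∑ u ∈ range X, NN (Ed z) (u : ℤ) H q := by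
        apply sum_le_sum_of_subset_of_nonneg
        · intro u hu; rw [mem_range] at hu ⊢; omega
        · intro u _ _; exact hnn u
      linarith
  have h2 : ∑ t ∈ (Ico (0 : ℤ) H) ∪ (Ioc (X : ℤ) (X + H)), NN (aa z X) (t - H) H q ≤ (2 * H) * b := by
    refine (sum_le_card_nsmul _ _ b (fun t _ => htriv t)).trans ?_
    rw [nsmul_eq_mul]
    apply mul_le_mul_of_nonneg_right _ hb0
    have : ((Ico (0 : ℤ) H) ∪ (Ioc (X : ℤ) (X + H))).card ≤ 2 * H := by
      refine (card_union_le _ _).trans ?_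
      rw [Int.card_Ico, Int.card_Ioc]
      omega
    exact_mod_cast this
  linarith

/-- **The mean square.** -/
theorem ms (A G : ℕ) : ∃ E₀ D : ℕ, ∀ E₁ : ℕ, ∃ X₀ : ℕ, ∀ X : ℕ, X₀ ≤ X → ∀ z : ℕ,
    Real.log X ^ E₀ ≤ z → (z : ℝ) ≤ Real.log X ^ E₁ → ∀ P : ℕ, √(X : ℝ) ≤ P * Real.log X ^ G →
    P * Real.log X ^ D ≤ X → ∀ u v : ℕ, u ≤ v → v ≤ P →
    ∑ N ∈ Icc 1 X, (∑ m ∈ Ioc u v, ArithmeticFunction.vonMangoldt m * Ed z ((N : ℤ) - m)) ^ 2 ≤
      X * (P : ℝ) ^ 2 / Real.log X ^ A := by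
  classical
  obtain ⟨A₁, hA₁⟩ : ∃ A₁, A₁ = A + 3 := ⟨_, rfl⟩
  obtain ⟨K, hK⟩ : ∃ K, K = 3 * A₁ + 17 := ⟨_, rfl⟩
  obtain ⟨A', hA'⟩ : ∃ A', A' = A + 3 * K + 3 := ⟨_, rfl⟩
  refine ⟨K + 1, A' + 3, fun E₁ => ?_⟩
  obtain ⟨P₀, hP₀⟩ := dich A₁
  obtain ⟨X1, hSI⟩ := Pool.Agent.H561.SW.t_SI3 A' (K + 1) (K + G + 1) E₁
  obtain ⟨X2, hV2⟩ := Vz_inv_small E₁
  obtain ⟨X3, h3⟩ := ev_L' (1024 + 32 * 4 ^ (2 * A₁))
  obtain ⟨X5, h5⟩ := ev_log' (2 * (G + 5 * K)) 1024
  refine ⟨X1 + X2 + X3 + X5 + P₀ ^ 4 + 16, fun X hX z hz1 hz2 P hP1 hP2 u v huv hv => ?_⟩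
  have hL := h3 X (by omega)
  have c5 := h5 X (by omega)
  have hX16 : (16 : ℝ) ≤ X := by exact_mod_cast (by omega : 16 ≤ X)
  have hX0 : (0 : ℝ) < X := by linarith
  have hVz := hV2 X (by omega) z (by
    have : (0 : ℝ) < z := by
      refine lt_of_lt_of_le ?_ hz1
      have : 0 < Real.log X := by
        have : (0 : ℝ) < 32 * 4 ^ (2 * A₁) := by positivity
        linarith
      positivity
    exact_mod_cast this) hz2
  have hSI2 := hSI X (by omega) z hz1 hz2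
  have hws := fun H q (hHX : H ≤ X) (hX' : 0 ≤ Real.log X) => win_sum X H q z hHX hVz hX'
  obtain ⟨L, hLd⟩ : ∃ L, L = Real.log (X : ℝ) := ⟨_, rfl⟩
  rw [← hLd] at hL c5 hVz hz1 hz2 hP1 hP2 hSI2 hws ⊢
  have h44 : (0 : ℝ) < 32 * 4 ^ (2 * A₁) := by positivity
  have hL1024 : 1024 ≤ L := by linarith
  have hL1 : 1 ≤ L := by linarith
  have hL0 : 0 < L := by linarith
  have hsq : √(X : ℝ) * √(X : ℝ) = X := Real.mul_self_sqrt hX0.le
  have hs0 : 0 < √(X : ℝ) := Real.sqrt_pos.2 hX0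
  have hq2 : √(√(X : ℝ)) * √(√(X : ℝ)) = √(X : ℝ) := Real.mul_self_sqrt hs0.le
  have hq0 : 0 < √(√(X : ℝ)) := Real.sqrt_pos.2 hs0
  have hX4 : √(√(X : ℝ)) ^ 4 = X := by
    calc √(√(X : ℝ)) ^ 4 = (√(√(X : ℝ)) * √(√(X : ℝ))) * (√(√(X : ℝ)) * √(√(X : ℝ))) := by ring
      _ = X := by rw [hq2, hsq]
  have hq1 : 1 ≤ √(√(X : ℝ)) := by
    by_contra hcon
    push Not at hcon
    have : √(√(X : ℝ)) ^ 4 ≤ 1 := pow_le_one₀ hq0.le hcon.le
    linarith
  have hLG0 : 0 < L ^ G := by positivity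
  have hLK0 : 0 < L ^ K := by positivity
  have hLK1 : 1 ≤ L ^ K := one_le_pow₀ hL1
  -- the size of P
  have hP5 : (32 * L ^ (5 * K)) * √(√(X : ℝ)) ≤ P := by
    have e1 : (32 * L ^ (5 * K) * L ^ G) * √(√(X : ℝ)) ≤ √(X : ℝ) := by
      have e3 : 32 * L ^ (5 * K) * L ^ G ≤ √(√(X : ℝ)) := by
        apply Real.le_sqrt_of_sq_le
        refine le_trans (le_of_eq ?_) c5
        ring
      calc (32 * L ^ (5 * K) * L ^ G) * √(√(X : ℝ)) ≤ √(√(X : ℝ)) * √(√(X : ℝ)) :=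
            mul_le_mul_of_nonneg_right e3 (Real.sqrt_nonneg _)
        _ = √(X : ℝ) := hq2
    have e4 : (32 * L ^ (5 * K)) * √(√(X : ℝ)) * L ^ G ≤ P * L ^ G := by
      calc _ = (32 * L ^ (5 * K) * L ^ G) * √(√(X : ℝ)) := by ring
        _ ≤ √(X : ℝ) := e1
        _ ≤ _ := hP1
    exact le_of_mul_le_mul_right e4 hLG0
  have h5K1 : 1 ≤ L ^ (5 * K) := one_le_pow₀ hL1
  have hPs : √(√(X : ℝ)) ≤ P := by
    refine le_trans ?_ hP5
    nlinarith
  have hP32 : 32 * L ^ (5 * K) ≤ P := by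
    refine le_trans ?_ hP5
    exact le_mul_of_one_le_right (by positivity) hq1
  have hPr0 : (0 : ℝ) < P := by linarith
  have hPP₀ : P₀ ≤ P := by
    have e1 : (P₀ : ℝ) ^ 4 ≤ √(√(X : ℝ)) ^ 4 := by
      rw [hX4]
      exact_mod_cast (by omega : P₀ ^ 4 ≤ X)
    have e2 : (P₀ : ℝ) ≤ √(√(X : ℝ)) := by
      by_contra hc
      push Not at hc
      have := pow_lt_pow_left₀ hc hq0.le (by norm_num : (4 : ℕ) ≠ 0)
      linarith
    exact_mod_cast e2.trans hPs
  have hPX : (P : ℝ) ≤ X := by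
    refine le_trans ?_ hP2
    exact le_mul_of_one_le_right hPr0.le (one_le_pow₀ hL1)
  have hPXn : P ≤ X := by exact_mod_cast hPX
  have hlogP : L / 4 ≤ Real.log P := by
    have e1 : Real.log (√(√(X : ℝ))) ≤ Real.log P := Real.log_le_log hq0 hPs
    have e2 : L = 4 * Real.log (√(√(X : ℝ))) := by
      rw [hLd]
      nth_rewrite 1 [← hX4]
      rw [Real.log_pow]
      norm_num
    linarith
  have hlogP0 : 0 < Real.log P := by linarith
  have hlogP2 : Real.log P ≤ L := by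
    rw [hLd]
    exact Real.log_le_log hPr0 hPX
  -- the parameter V
  obtain ⟨V, hV⟩ : ∃ V, V = ⌈L ^ K⌉₊ := ⟨_, rfl⟩
  have hV1 : L ^ K ≤ V := by rw [hV]; exact Nat.le_ceil _
  have hV2' : (V : ℝ) ≤ 2 * L ^ K := by
    have := (Nat.ceil_lt_add_one hLK0.le).le
    rw [← hV] at this
    linarith
  have hV0 : (0 : ℝ) < V := by linarith
  have hVn : 1 ≤ V := by exact_mod_cast hV0
  have hV4 : 4 ≤ V := by
    have : (4 : ℝ) ≤ V := by
      refine le_trans ?_ hV1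
      calc (4 : ℝ) ≤ L := by linarith
        _ ≤ L ^ K := le_self_pow₀ hL1 (by omega)
    exact_mod_cast this
  have hVK : Real.log P ^ (3 * A₁ + 17) ≤ V := by
    refine le_trans ?_ hV1
    rw [hK]
    exact pow_le_pow_left₀ hlogP0.le hlogP2 _
  have hV5 : V ^ 5 ≤ P := by
    have : (V : ℝ) ^ 5 ≤ P := by
      calc (V : ℝ) ^ 5 ≤ (2 * L ^ K) ^ 5 := pow_le_pow_left₀ hV0.le hV2' 5
        _ = 32 * L ^ (5 * K) := by ring
        _ ≤ P := hP32
    exact_mod_cast this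
  -- the parameter H
  obtain ⟨H, hH⟩ : ∃ H, H = P / (6 * V) := ⟨_, rfl⟩
  have hH1 : 6 * H * V ≤ P := by
    rw [hH]
    calc 6 * (P / (6 * V)) * V = P / (6 * V) * (6 * V) := by ring
      _ ≤ P := Nat.div_mul_le_self _ _
  have hH2 : P < (H + 1) * (6 * V) := by
    have := Nat.lt_mul_div_succ P (show 0 < 6 * V by omega)
    rw [hH]
    linarith
  have hHpos : 1 ≤ H := by
    rw [hH]
    apply Nat.div_pos _ (by omega)
    have : 6 * (V : ℝ) ≤ P := by
      have e1 : L ^ K ≤ L ^ (5 * K) := pow_le_pow_right₀ hL1 (by omega)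
      linarith
    exact_mod_cast this
  have hHr : (1 : ℝ) ≤ H := by exact_mod_cast hHpos
  have hH0 : (0 : ℝ) < H := by linarith
  have hHP : H ≤ P := by
    rw [hH]
    exact Nat.div_le_self _ _
  have hHX : H ≤ X := hHP.trans hPXn
  have hHPr : (H : ℝ) ≤ P := by exact_mod_cast hHP
  have hPH : (P : ℝ) ≤ 24 * H * L ^ K := by
    have e1 : (P : ℝ) ≤ (H + 1) * (6 * V) := by exact_mod_cast hH2.le
    calc (P : ℝ) ≤ (H + 1) * (6 * V) := e1
      _ ≤ (H + H) * (6 * (2 * L ^ K)) := by gcongr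
      _ = 24 * H * L ^ K := by ring
  have hW : (X : ℝ) ^ (1 / 2 : ℝ) ≤ H * L ^ (K + G + 1) := by
    rw [← Real.sqrt_eq_rpow]
    calc √(X : ℝ) ≤ P * L ^ G := hP1
      _ ≤ (24 * H * L ^ K) * L ^ G := mul_le_mul_of_nonneg_right hPH hLG0.le
      _ ≤ (L * H * L ^ K) * L ^ G := by
          have : (24 : ℝ) ≤ L := by linarith
          gcongr
      _ = H * L ^ (K + G + 1) := by ring
  -- the windows
  have hDb : ∀ q ∈ Icc 1 V, ∑ t ∈ Icc (0 : ℤ) (X + H), NN (aa z X) (t - H) H q ≤ 2 * (X * (H : ℝ) ^ 2 / L ^ A') := by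
    intro q hq
    rw [mem_Icc] at hq
    have hqV : (q : ℝ) ≤ L ^ (K + 1) := by
      have : (q : ℝ) ≤ V := by exact_mod_cast hq.2
      calc (q : ℝ) ≤ 2 * L ^ K := this.trans hV2'
        _ ≤ L * L ^ K := by
            have : (2 : ℝ) ≤ L := by linarith
            gcongr
        _ = L ^ (K + 1) := by ring
    refine (hws H q hHX hL0.le).trans ?_
    have e1 := hSI2 q hq.1 hqV H hW hHX
    have e2 : (2 * (H : ℝ) + 1) * (H * (2 * L)) ^ 2 ≤ X * (H : ℝ) ^ 2 / L ^ A' := by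
      rw [le_div_iff₀ (by positivity)]
      calc (2 * (H : ℝ) + 1) * (H * (2 * L)) ^ 2 * L ^ A' ≤ (3 * H) * (H * (2 * L)) ^ 2 * L ^ A' := by
            gcongr
            linarith
        _ = 12 * (H * (L ^ 2 * L ^ A')) * H ^ 2 := by ring
        _ ≤ L * (P * (L ^ 2 * L ^ A')) * H ^ 2 := by
            have : (12 : ℝ) ≤ L := by linarith
            gcongr
        _ = (P * L ^ (A' + 3)) * H ^ 2 := by ring
        _ ≤ X * H ^ 2 := by gcongr
    linarith
  have hF : ∀ α : ℝ, ‖ht (Ioc 0 (P : ℤ)) (fun n => (lw u v n : ℂ)) α‖ ≤ 2 * P * L := by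
    intro α
    rw [ht_lw u v P huv hv α]
    refine (norm_sub_le _ _).trans ?_
    have e1 := Sg_triv v P hv α
    have e2 := Sg_triv u P (huv.trans hv) α
    have e3 : (v : ℝ) * Real.log P ≤ P * L := by
      have : (v : ℝ) ≤ P := by exact_mod_cast hv
      exact mul_le_mul this hlogP2 hlogP0.le hPr0.le
    have e4 : (u : ℝ) * Real.log P ≤ P * L := by
      have : (u : ℝ) ≤ P := by exact_mod_cast huv.trans hv
      exact mul_le_mul this hlogP2 hlogP0.le hPr0.le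
    linarith
  have hmain := circ X P H V hHpos hHP (lw u v) (aa z X) (aa_supp z X) (2 * P / Real.log P ^ A₁) (2 * P * L)
    (2 * (X * (H : ℝ) ^ 2 / L ^ A')) hF (hP₀ P hPP₀ V hV4 hVK hV5 H hH1 u v huv hv) hDb
  -- the left side
  have hleft : ∑ N ∈ Icc 1 X, (∑ m ∈ Ioc u v, ArithmeticFunction.vonMangoldt m * Ed z ((N : ℤ) - m)) ^ 2 ≤
      ∑ t ∈ Icc (0 : ℤ) (X + P), (∑ m ∈ Ioc 0 (P : ℤ), lw u v m * aa z X (t - m)) ^ 2 := by
    have e1 : ∑ N ∈ Icc 1 X, (∑ m ∈ Ioc u v, ArithmeticFunction.vonMangoldt m * Ed z ((N : ℤ) - m)) ^ 2 =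
        ∑ t ∈ Icc (1 : ℤ) X, (∑ m ∈ Ioc 0 (P : ℤ), lw u v m * aa z X (t - m)) ^ 2 := by
      apply sum_nbij' (fun N : ℕ => (N : ℤ)) (fun t : ℤ => t.toNat)
      · intro N hN; rw [mem_Icc] at hN ⊢; omega
      · intro t ht; rw [mem_Icc] at ht ⊢; omega
      · intro N _; simp
      · intro t ht; rw [mem_Icc] at ht; exact Int.toNat_of_nonneg (by omega)
      · intro N hN
        rw [mem_Icc] at hN
        congr 1
        have e2 : ∑ m ∈ Ioc 0 (P : ℤ), lw u v m * aa z X ((N : ℤ) - m) =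
            ∑ m ∈ (Ioc 0 (P : ℤ)).filter (fun m => (u : ℤ) < m ∧ m ≤ v), lw u v m * aa z X ((N : ℤ) - m) := by
          rw [sum_filter]
          apply sum_congr rfl
          intro m _
          split_ifs with h
          · rfl
          · unfold lw
            rw [if_neg h, zero_mul]
        rw [e2]
        apply sum_nbij' (fun m : ℕ => (m : ℤ)) (fun m : ℤ => m.toNat)
        · intro m hm; rw [mem_Ioc] at hm; rw [mem_filter, mem_Ioc]; omega
        · intro m hm; rw [mem_filter, mem_Ioc] at hm; rw [mem_Ioc]; omega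
        · intro m _; simp
        · intro m hm; rw [mem_filter, mem_Ioc] at hm; exact Int.toNat_of_nonneg (by omega)
        · intro m hm
          rw [mem_Ioc] at hm
          unfold lw aa
          rw [if_pos (by omega), if_pos (by omega), Int.toNat_natCast]
    rw [e1]
    apply sum_le_sum_of_subset_of_nonneg
    · intro t ht
      rw [mem_Icc] at ht ⊢
      omega
    · intro t _ _
      positivity
  refine hleft.trans (hmain.trans ?_)
  -- the first term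
  have hsum2 : ∑ n ∈ Ioc 0 (X : ℤ), aa z X n ^ 2 ≤ X * (2 * L) ^ 2 := by
    have e1 : ∀ n ∈ Ioc 0 (X : ℤ), aa z X n ^ 2 ≤ (2 * L) ^ 2 := by
      intro n _
      rw [← sq_abs]
      apply pow_le_pow_left₀ (abs_nonneg _)
      have := aa_bound X z n (by rw [← hLd]; exact hVz) (by rw [← hLd]; exact hL0.le)
      rw [← hLd] at this
      exact this
    refine (sum_le_card_nsmul _ _ _ e1).trans (le_of_eq ?_)
    rw [Int.card_Ioc, nsmul_eq_mul, sub_zero, Int.toNat_natCast]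
  have hlogPA : (L / 4) ^ A₁ ≤ Real.log P ^ A₁ := pow_le_pow_left₀ (by positivity) hlogP _
  have ht1 : (2 * P / Real.log P ^ A₁) ^ 2 * ∑ n ∈ Ioc 0 (X : ℤ), aa z X n ^ 2 ≤ X * (P : ℝ) ^ 2 / L ^ A / 2 := by
    calc (2 * P / Real.log P ^ A₁) ^ 2 * ∑ n ∈ Ioc 0 (X : ℤ), aa z X n ^ 2
        ≤ (2 * P / (L / 4) ^ A₁) ^ 2 * (X * (2 * L) ^ 2) := by gcongr
      _ = X * (P : ℝ) ^ 2 / L ^ A * (16 * 4 ^ (2 * A₁) / L ^ (A + 4)) := by
          rw [div_pow L 4, hA₁]
          field_simp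
          ring
      _ ≤ X * (P : ℝ) ^ 2 / L ^ A * (1 / 2) := by
          apply mul_le_mul_of_nonneg_left _ (by positivity)
          rw [div_le_iff₀ (by positivity)]
          have : L ≤ L ^ (A + 4) := le_self_pow₀ hL1 (by omega)
          linarith
      _ = X * (P : ℝ) ^ 2 / L ^ A / 2 := by ring
  have ht2 : (2 * P * L) ^ 2 * (4 / (H : ℝ) ^ 2 * ((V : ℝ) * V * (V + 1)) * (2 * (X * (H : ℝ) ^ 2 / L ^ A'))) ≤
      X * (P : ℝ) ^ 2 / L ^ A / 2 := by
    have hV3 : (V : ℝ) * V * (V + 1) ≤ 16 * L ^ (3 * K) := by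
      calc (V : ℝ) * V * (V + 1) ≤ V * V * (V + V) := by
            have : (1 : ℝ) ≤ V := by exact_mod_cast hVn
            gcongr
        _ = 2 * (V : ℝ) ^ 3 := by ring
        _ ≤ 2 * (2 * L ^ K) ^ 3 := by gcongr
        _ = 16 * L ^ (3 * K) := by ring
    calc (2 * P * L) ^ 2 * (4 / (H : ℝ) ^ 2 * ((V : ℝ) * V * (V + 1)) * (2 * (X * (H : ℝ) ^ 2 / L ^ A')))
        ≤ (2 * P * L) ^ 2 * (4 / (H : ℝ) ^ 2 * (16 * L ^ (3 * K)) * (2 * (X * (H : ℝ) ^ 2 / L ^ A'))) := by gcongr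
      _ = X * (P : ℝ) ^ 2 / L ^ A * (512 / L) := by
          rw [hA']
          field_simp
          ring
      _ ≤ X * (P : ℝ) ^ 2 / L ^ A * (1 / 2) := by
          apply mul_le_mul_of_nonneg_left _ (by positivity)
          rw [div_le_iff₀ hL0]
          linarith
      _ = X * (P : ℝ) ^ 2 / L ^ A / 2 := by ring
  linarith

end Pool.Agent.H561.CM
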