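import Pool.Agent.H561.CM.A6
import Pool.Graph.R_seed8.R460.GH.Appl

set_option autoImplicit false

/-! Prime powers, and the weighted numbers against the numbers of the pairs. -/

namespace Pool.Agent.H561.CM

open Finset
open Pool.Agent.H373R2.T7
open Pool.Agent.H560R3.GB (sing)
open Pool.Agent.W93.GB
open Pool.Agent.W93.PG (cnt wn lam_sub)
open Pool.Agent.helper24_UT (Ed)

/-- few prime powers `m - n` at all scales -/
def GoodP (G D V X m : ℕ) : Prop := ∀ j : ℕ, √(X : ℝ) ≤ ((2 ^ j : ℕ) : ℝ) * Real.log X ^ G →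
  ((2 ^ j : ℕ) : ℝ) * Real.log X ^ D ≤ X → ∑ n ∈ Icc 1 (2 ^ j), pp (m - n) ≤ ((2 ^ j : ℕ) : ℝ) / Real.log X ^ V

open Classical in
theorem excP (A V G D : ℕ) : ∃ X₀ : ℕ, ∀ X : ℕ, X₀ ≤ X →
    (((Icc 1 X).filter (fun m : ℕ => ¬ GoodP G D V X m)).card : ℝ) ≤ X / Real.log X ^ A := by
  obtain ⟨X3, h3⟩ := ev_L' 100
  obtain ⟨X4, h4⟩ := ev_log' (V + A + 3) 1
  refine ⟨X3 + X4 + 4, fun X hX => ?_⟩
  have hL := h3 X (by omega)
  have a4 := h4 X (by omega)
  have hnl := natlog_le X (by omega)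
  have hpp := sum_pp X (by omega)
  have hX0 : (0 : ℝ) < X := by exact_mod_cast (by omega : 0 < X)
  have hX1 : (1 : ℝ) ≤ X := by exact_mod_cast (by omega : 1 ≤ X)
  have hGd : ∀ m, ¬ GoodP G D V X m → ∃ j : ℕ, √(X : ℝ) ≤ ((2 ^ j : ℕ) : ℝ) * Real.log X ^ G ∧
      ((2 ^ j : ℕ) : ℝ) * Real.log X ^ D ≤ X ∧ ((2 ^ j : ℕ) : ℝ) / Real.log X ^ V < ∑ n ∈ Icc 1 (2 ^ j), pp (m - n) := by
    intro m hm
    unfold GoodP at hm
    push Not at hm
    exact hm
  obtain ⟨L, hLd⟩ : ∃ L, L = Real.log (X : ℝ) := ⟨_, rfl⟩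
  rw [← hLd] at hL a4 hnl hpp hGd ⊢
  rw [one_mul] at a4
  have hL1 : 1 ≤ L := by linarith
  have hL0 : 0 < L := by linarith
  have hss : √(X : ℝ) * √(X : ℝ) = X := Real.mul_self_sqrt hX0.le
  have hs0 : 0 < √(X : ℝ) := Real.sqrt_pos.2 hX0
  obtain ⟨Bd, hBd⟩ : ∃ Bd : ℕ → Finset ℕ, Bd = fun j => (Icc 1 X).filter (fun m : ℕ =>
    ((2 ^ j : ℕ) : ℝ) / L ^ V < ∑ n ∈ Icc 1 (2 ^ j), pp (m - n)) := ⟨_, rfl⟩
  have hsub : (Icc 1 X).filter (fun m : ℕ => ¬ GoodP G D V X m) ⊆ (range (Nat.log 2 X + 1)).biUnion Bd := by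
    intro m hm
    rw [mem_filter, mem_Icc] at hm
    obtain ⟨⟨hm1, hmX⟩, hnG⟩ := hm
    obtain ⟨j, hj1, hj2, hj3⟩ := hGd m hnG
    rw [mem_biUnion]
    refine ⟨j, ?_, ?_⟩
    · rw [mem_range]
      have : ((2 ^ j : ℕ) : ℝ) ≤ X := by
        refine le_trans ?_ hj2
        exact le_mul_of_one_le_right (Nat.cast_nonneg _) (one_le_pow₀ hL1)
      have : 2 ^ j ≤ X := by exact_mod_cast this
      have := Nat.le_log_of_pow_le (by norm_num : 1 < 2) this
      omega
    · rw [hBd]
      simp only [mem_filter, mem_Icc]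
      exact ⟨⟨hm1, hmX⟩, hj3⟩
  have hcard : ∀ j ∈ range (Nat.log 2 X + 1), ((Bd j).card : ℝ) ≤ 2 * √(X : ℝ) * L ^ (V + 1) := by
    intro j _
    have hP0 : (0 : ℝ) < ((2 ^ j : ℕ) : ℝ) := by positivity
    have e2 : ((Bd j).card : ℝ) * (((2 ^ j : ℕ) : ℝ) / L ^ V) ≤ ((2 ^ j : ℕ) : ℝ) * (2 * √(X : ℝ) * L) := by
      rw [← nsmul_eq_mul]
      refine le_trans (card_nsmul_le_sum (Bd j) (fun m : ℕ => ∑ n ∈ Icc 1 (2 ^ j), pp (m - n)) _ ?_) ?_
      · intro m hm
        rw [hBd] at hm
        simp only [mem_filter] at hm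
        exact hm.2.le
      · calc ∑ m ∈ Bd j, ∑ n ∈ Icc 1 (2 ^ j), pp (m - n) ≤ ∑ m ∈ Icc 1 X, ∑ n ∈ Icc 1 (2 ^ j), pp (m - n) := by
              apply sum_le_sum_of_subset_of_nonneg
              · intro N hN
                rw [hBd] at hN
                simp only [mem_filter] at hN
                exact hN.1
              · intro m _ _
                exact sum_nonneg fun n _ => pp_nonneg _
          _ = ∑ n ∈ Icc 1 (2 ^ j), ∑ m ∈ Icc 1 X, pp (m - n) := sum_comm
          _ ≤ ∑ n ∈ Icc 1 (2 ^ j), 2 * √(X : ℝ) * L := by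
              apply sum_le_sum
              intro n hn
              refine le_trans ?_ hpp
              have hpp0 : pp 0 = 0 := by
                unfold pp lamP
                simp
              have e3 : ∑ m ∈ Icc 1 X, pp (m - n) = ∑ m ∈ (Icc 1 X).filter (fun m => n < m), pp (m - n) := by
                rw [sum_filter]
                apply sum_congr rfl
                intro m _
                split_ifs with h
                · rfl
                · rw [Nat.sub_eq_zero_of_le (not_lt.1 h), hpp0]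
              rw [e3]
              have e4 : ∑ m ∈ (Icc 1 X).filter (fun m => n < m), pp (m - n) =
                  ∑ t ∈ ((Icc 1 X).filter (fun m => n < m)).image (fun m => m - n), pp t := by
                rw [sum_image]
                intro a ha b hb hab
                rw [mem_coe, mem_filter] at ha hb
                simp only at hab
                omega
              rw [e4]
              apply sum_le_sum_of_subset_of_nonneg
              · intro t ht
                rw [mem_image] at ht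
                obtain ⟨m, hm, rfl⟩ := ht
                rw [mem_filter, mem_Icc] at hm
                rw [mem_Icc]
                omega
              · intro t _ _
                exact pp_nonneg t
          _ = ((2 ^ j : ℕ) : ℝ) * (2 * √(X : ℝ) * L) := by
              rw [sum_const, Nat.card_Icc, nsmul_eq_mul, Nat.add_sub_cancel]
    have e3 : ((2 ^ j : ℕ) : ℝ) * (2 * √(X : ℝ) * L) = (2 * √(X : ℝ) * L ^ (V + 1)) * (((2 ^ j : ℕ) : ℝ) / L ^ V) := by
      rw [pow_succ]
      field_simp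
    rw [e3] at e2
    exact le_of_mul_le_mul_right e2 (by positivity)
  have h9 : (((Icc 1 X).filter (fun m : ℕ => ¬ GoodP G D V X m)).card : ℝ) ≤
      ∑ j ∈ range (Nat.log 2 X + 1), (2 * √(X : ℝ) * L ^ (V + 1)) := by
    calc (((Icc 1 X).filter (fun m : ℕ => ¬ GoodP G D V X m)).card : ℝ)
        ≤ (((range (Nat.log 2 X + 1)).biUnion Bd).card : ℝ) := by
          exact_mod_cast card_le_card hsub
      _ ≤ ∑ j ∈ range (Nat.log 2 X + 1), ((Bd j).card : ℝ) := by
          exact_mod_cast card_biUnion_le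
      _ ≤ _ := sum_le_sum fun j hj => hcard j hj
  refine h9.trans ?_
  rw [sum_const, card_range, nsmul_eq_mul, le_div_iff₀ (by positivity)]
  push_cast
  calc ((Nat.log 2 X : ℝ) + 1) * (2 * √(X : ℝ) * L ^ (V + 1)) * L ^ A
      ≤ (3 * L) * (2 * √(X : ℝ) * L ^ (V + 1)) * L ^ A := by
        gcongr
        linarith
    _ = 6 * √(X : ℝ) * L ^ (V + A + 2) := by ring
    _ ≤ L * √(X : ℝ) * L ^ (V + A + 2) := by
        gcongr
        linarith
    _ = √(X : ℝ) * L ^ (V + A + 3) := by ring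
    _ ≤ √(X : ℝ) * √(X : ℝ) := mul_le_mul_of_nonneg_left a4 hs0.le
    _ = X := hss

/-- the weighted number in a window from initial segments -/
lemma wn_eq (m a b : ℕ) (hab : a ≤ b) : wn m a b = RR m b - RR m a := by
  unfold wn RR
  have h3 : Icc 1 b = Icc 1 a ∪ Ioc a b := by
    ext n
    rw [mem_union, mem_Icc, mem_Icc, mem_Ioc]
    omega
  have h4 : Disjoint (Icc 1 a) (Ioc a b) := by
    rw [disjoint_left]
    intro n h5 h6
    rw [mem_Icc] at h5
    rw [mem_Ioc] at h6
    omega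
  rw [h3, sum_union h4]
  ring

/-- the weighted number from above by the number of pairs -/
lemma wn_le_cnt (m a b P : ℕ) (hbP : b ≤ P) (hPm : P ≤ m) (hb : 1 ≤ b) :
    wn m a b ≤ cnt m a b * (Real.log b * Real.log m) +
      Real.log m * (2 * √(P : ℝ) * Real.log P + ∑ n ∈ Icc 1 P, pp (m - n)) := by
  have hm : 1 ≤ m := by omega
  have hP : 1 ≤ P := by omega
  have hlog : 0 ≤ Real.log m := Real.log_natCast_nonneg m
  have hlogb : 0 ≤ Real.log b := Real.log_natCast_nonneg b
  have hlogbm : Real.log b ≤ Real.log m := Real.log_le_log (by exact_mod_cast hb) (by exact_mod_cast (by omega : b ≤ m))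
  have key : ∀ N c : ℕ, 1 ≤ N → c ≤ N → lamP (c : ℤ) ≤ Real.log N := by
    intro N c hN hc
    have := lamP_le (c : ℤ)
    rw [lam_nat] at this
    exact this.trans (vM_le c N hN hc)
  have h1 : ∀ n ∈ Ioc a b, ArithmeticFunction.vonMangoldt n * lamI ((m : ℤ) - n) ≤
      lamP (n : ℤ) * lamP ((m - n : ℕ) : ℤ) + Real.log m * (pp n + pp (m - n)) := by
    intro n hn
    rw [mem_Ioc] at hn
    rw [lam_sub m n (by omega)]
    have a1 := vM_le (m - n) m hm (by omega)
    have a3 := key m n hm (by omega)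
    have a4 := pp_nonneg n
    have a5 := pp_nonneg (m - n)
    have e : ArithmeticFunction.vonMangoldt n * ArithmeticFunction.vonMangoldt (m - n) =
        lamP (n : ℤ) * lamP ((m - n : ℕ) : ℤ) + (pp n * ArithmeticFunction.vonMangoldt (m - n) + lamP (n : ℤ) * pp (m - n)) := by
      unfold pp
      ring
    rw [e]
    have a8 : pp n * ArithmeticFunction.vonMangoldt (m - n) ≤ pp n * Real.log m := mul_le_mul_of_nonneg_left a1 a4
    have a9 : lamP (n : ℤ) * pp (m - n) ≤ Real.log m * pp (m - n) := mul_le_mul_of_nonneg_right a3 a5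
    linarith
  unfold wn
  refine (sum_le_sum h1).trans ?_
  rw [sum_add_distrib, ← mul_sum]
  have hsub : Ioc a b ⊆ Icc 1 P := by
    intro n hn
    rw [mem_Ioc] at hn
    rw [mem_Icc]
    omega
  have h3 : ∑ n ∈ Ioc a b, (pp n + pp (m - n)) ≤ ∑ n ∈ Icc 1 P, (pp n + pp (m - n)) :=
    sum_le_sum_of_subset_of_nonneg hsub (fun n _ _ => add_nonneg (pp_nonneg _) (pp_nonneg _))
  rw [sum_add_distrib (s := Icc 1 P)] at h3
  have h4 := sum_pp P hP
  have h6 : ∑ n ∈ Ioc a b, lamP (n : ℤ) * lamP ((m - n : ℕ) : ℤ) ≤ cnt m a b * (Real.log b * Real.log m) := by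
    unfold cnt
    rw [card_filter]
    push_cast
    rw [sum_mul]
    apply sum_le_sum
    intro n hn
    rw [mem_Ioc] at hn
    split_ifs with h
    · rw [one_mul]
      exact mul_le_mul (key b n hb hn.2) (key m _ hm (by omega)) (lamP_nonneg _) hlogb
    · rw [zero_mul]
      apply le_of_eq
      rw [not_and_or] at h
      unfold lamP
      rw [Int.toNat_natCast, Int.toNat_natCast]
      rcases h with h | h
      · rw [if_neg h, zero_mul]
      · rw [if_neg h, mul_zero]
  have h7 : Real.log m * ∑ n ∈ Ioc a b, (pp n + pp (m - n)) ≤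
      Real.log m * (2 * √(P : ℝ) * Real.log P + ∑ n ∈ Icc 1 P, pp (m - n)) :=
    mul_le_mul_of_nonneg_left (by linarith) hlog
  linarith

/-- the number of pairs from above by the weighted number -/
lemma cnt_le_wn (m a b y : ℕ) (hbm : 2 * b ≤ m) (hy : 2 ≤ y) (hm : 4 ≤ m) :
    (cnt m a b : ℝ) ≤ y + wn m a b / (Real.log y * Real.log ((m : ℝ) / 2)) := by
  have hly : 0 < Real.log y := Real.log_pos (by exact_mod_cast (by omega : 1 < y))
  have hmr : (4 : ℝ) ≤ m := by exact_mod_cast hm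
  have hlm : 0 < Real.log ((m : ℝ) / 2) := Real.log_pos (by linarith)
  have h1 : ((Ioc a b).filter (fun p => p.Prime ∧ (m - p).Prime)) ⊆
      Icc 1 y ∪ ((Ioc a b).filter (fun p => p.Prime ∧ (m - p).Prime ∧ y < p)) := by
    intro p hp
    rw [mem_filter, mem_Ioc] at hp
    rw [mem_union, mem_Icc, mem_filter, mem_Ioc]
    by_cases h1 : p ≤ y
    · exact Or.inl ⟨by omega, h1⟩
    · exact Or.inr ⟨hp.1, hp.2.1, hp.2.2, by omega⟩
  have h3 : (((Ioc a b).filter (fun p => p.Prime ∧ (m - p).Prime ∧ y < p)).card : ℝ) * (Real.log y * Real.log ((m : ℝ) / 2)) ≤ wn m a b := by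
    rw [card_filter]
    push_cast
    rw [sum_mul]
    unfold wn
    apply sum_le_sum
    intro p hp
    rw [mem_Ioc] at hp
    split_ifs with h
    · rw [lam_sub m p (by omega), ArithmeticFunction.vonMangoldt_apply_prime h.1, ArithmeticFunction.vonMangoldt_apply_prime h.2.1, one_mul]
      have a1 : Real.log y ≤ Real.log p := Real.log_le_log (by exact_mod_cast (by omega : 0 < y)) (by exact_mod_cast h.2.2.le)
      have a2 : Real.log ((m : ℝ) / 2) ≤ Real.log ((m - p : ℕ) : ℝ) := by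
        apply Real.log_le_log (by linarith)
        rw [Nat.cast_sub (by omega)]
        have : 2 * (p : ℝ) ≤ m := by exact_mod_cast (by omega : 2 * p ≤ m)
        linarith
      exact mul_le_mul a1 a2 hlm.le (hly.le.trans a1)
    · rw [zero_mul]
      exact mul_nonneg ArithmeticFunction.vonMangoldt_nonneg (lamI_nonneg _)
  have h4 : cnt m a b ≤ y + ((Ioc a b).filter (fun p => p.Prime ∧ (m - p).Prime ∧ y < p)).card := by
    unfold cnt
    refine (card_le_card h1).trans ((card_union_le _ _).trans ?_)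
    rw [Nat.card_Icc]
    omega
  have h5 : (((Ioc a b).filter (fun p => p.Prime ∧ (m - p).Prime ∧ y < p)).card : ℝ) ≤ wn m a b / (Real.log y * Real.log ((m : ℝ) / 2)) := by
    rw [le_div_iff₀ (by positivity)]
    exact h3
  have h6 : (cnt m a b : ℝ) ≤ ((y + ((Ioc a b).filter (fun p => p.Prime ∧ (m - p).Prime ∧ y < p)).card : ℕ) : ℝ) := by
    exact_mod_cast h4
  push_cast at h6
  linarith

end Pool.Agent.H561.CM
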