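import Pool.Agent.H561.CM.A8

set_option autoImplicit false

/-! Almost all even numbers have the predicted numbers of pairs in all windows below `m / (log m) ^ D`. -/

namespace Pool.Agent.H561.CM

open Finset
open Pool.Agent.H373R2.T7
open Pool.Agent.H560R3.GB (sing)
open Pool.Agent.W93.GB
open Pool.Agent.R460.GH (dist)
open Pool.Agent.helper24_UT (Ed)

lemma HoldsS_mono (ε ε' : ℝ) (hε : ε' ≤ ε) (W B D m : ℕ) (hm : 1 ≤ √(m : ℝ) / Real.log m ^ B)
    (h : HoldsS ε' W B D m) : HoldsS ε W B D m := by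
  intro u v hu hv hvm huv
  refine (h u v hu hv hvm huv).trans ?_
  have hs := one_le_sing m
  have hL : 0 ≤ Real.log (m : ℝ) := Real.log_natCast_nonneg m
  have hv1 : 1 ≤ v := hm.trans hv
  have h1 : 0 ≤ v - u := (div_nonneg (by linarith) (pow_nonneg hL W)).trans huv
  apply mul_le_mul_of_nonneg_right hε
  apply div_nonneg
  · exact mul_nonneg (by linarith) h1
  · exact mul_nonneg (Real.log_nonneg hv1) hL

open Classical in
theorem excH (ε : ℝ) (hε : 0 < ε) (W B A : ℕ) : ∃ D : ℕ, ∃ X₀ : ℕ, ∀ X : ℕ, X₀ ≤ X →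
    (((Icc 1 X).filter (fun m : ℕ => 2 ∣ m ∧ X ≤ 2 * m ∧ ¬ HoldsS ε W B D m)).card : ℝ) ≤ X / Real.log X ^ A := by
  obtain ⟨D, X1, h1⟩ := exc (A + 1) (W + 4) (B + 1)
  obtain ⟨X2, h2⟩ := excP (A + 1) (W + 4) (B + 1) D
  obtain ⟨m0, h3⟩ := det_cnt (min ε (1 / 2)) (by positivity) (min_le_right _ _) W B D
  obtain ⟨X4, h4⟩ := ev_L' 2
  obtain ⟨X5, h5⟩ := ev_log' B 1
  refine ⟨D + 1, X1 + X2 + 2 * m0 + X4 + 2 * X5 + 4, fun X hX => ?_⟩
  have hL := h4 X (by omega)
  have a1 := h1 X (by omega)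
  have a2 := h2 X (by omega)
  have hX0 : (0 : ℝ) < X := by exact_mod_cast (by omega : 0 < X)
  have hsub : (Icc 1 X).filter (fun m : ℕ => 2 ∣ m ∧ X ≤ 2 * m ∧ ¬ HoldsS ε W B (D + 1) m) ⊆
      (Icc 1 X).filter (fun m : ℕ => 2 ∣ m ∧ (X : ℝ) / Real.log X ≤ m ∧ ¬ GoodS (B + 1) D (W + 4) X m) ∪
      (Icc 1 X).filter (fun m : ℕ => ¬ GoodP (B + 1) D (W + 4) X m) := by
    intro m hm
    rw [mem_filter, mem_Icc] at hm
    obtain ⟨⟨hm1, hmX⟩, h2m, hXm, hnH⟩ := hm
    rw [mem_union, mem_filter, mem_filter, mem_Icc]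
    by_cases hP : GoodP (B + 1) D (W + 4) X m
    · left
      refine ⟨⟨hm1, hmX⟩, h2m, ?_, ?_⟩
      · rw [div_le_iff₀ (by linarith)]
        have e1 : (X : ℝ) ≤ 2 * m := by exact_mod_cast hXm
        have e2 : (m : ℝ) * 2 ≤ m * Real.log X := mul_le_mul_of_nonneg_left hL (Nat.cast_nonneg _)
        linarith
      · intro hS
        apply hnH
        apply HoldsS_mono ε (min ε (1 / 2)) (min_le_left _ _)
        · have e3 := h5 m (by omega)
          have e4 : (0 : ℝ) < Real.log m ^ B := by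
            apply pow_pos
            apply Real.log_pos
            exact_mod_cast (by omega : 1 < m)
          rw [le_div_iff₀ e4]
          exact e3
        · exact h3 m (by omega) X hmX hXm hS hP
    · right
      exact ⟨⟨hm1, hmX⟩, hP⟩
  have hc : (((Icc 1 X).filter (fun m : ℕ => 2 ∣ m ∧ X ≤ 2 * m ∧ ¬ HoldsS ε W B (D + 1) m)).card : ℝ) ≤
      X / Real.log X ^ (A + 1) + X / Real.log X ^ (A + 1) := by
    refine le_trans ?_ (add_le_add a1 a2)
    exact_mod_cast (card_le_card hsub).trans (card_union_le _ _)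
  refine hc.trans ?_
  have hLA : 0 < Real.log (X : ℝ) ^ A := by
    apply pow_pos
    linarith
  calc (X : ℝ) / Real.log X ^ (A + 1) + X / Real.log X ^ (A + 1) = 2 * X / (Real.log X * Real.log X ^ A) := by
        rw [pow_succ']
        ring
    _ ≤ Real.log X * X / (Real.log X * Real.log X ^ A) := by gcongr
    _ = X / Real.log X ^ A := by
        have : Real.log (X : ℝ) ≠ 0 := by
          intro h
          rw [h] at hL
          linarith
        field_simp

open Classical in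
/-- **Dyadic summation.** -/
theorem dyadic (P : ℕ → Prop) (A X₀ : ℕ) (h : ∀ X : ℕ, X₀ ≤ X →
    (((Icc 1 X).filter (fun m : ℕ => P m ∧ X ≤ 2 * m)).card : ℝ) ≤ X / Real.log X ^ (A + 1)) :
    ∃ X₁ : ℕ, ∀ X : ℕ, X₁ ≤ X → (((Icc 1 X).filter P).card : ℝ) ≤ X / Real.log X ^ A := by
  obtain ⟨X2, h2⟩ := ev_L' (2 ^ (A + 4))
  obtain ⟨X3, h3⟩ := ev_log' A 2
  refine ⟨X2 + X3 + X₀ ^ 2 + 16, fun X hX => ?_⟩
  have a2 := h2 X (by omega)
  have a3 := h3 X (by omega)
  have hX0 : (0 : ℝ) < X := by exact_mod_cast (by omega : 0 < X)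
  have hss : √(X : ℝ) * √(X : ℝ) = X := Real.mul_self_sqrt hX0.le
  have hs0 : 0 < √(X : ℝ) := Real.sqrt_pos.2 hX0
  have hsX0 : (X₀ : ℝ) ≤ √(X : ℝ) := by
    apply Real.le_sqrt_of_sq_le
    have : X₀ ^ 2 ≤ X := by omega
    exact_mod_cast this
  have hs4 : 4 ≤ √(X : ℝ) := by
    apply Real.le_sqrt_of_sq_le
    have : 16 ≤ X := by omega
    have : (16 : ℝ) ≤ X := by exact_mod_cast this
    linarith
  obtain ⟨L, hLd⟩ : ∃ L, L = Real.log (X : ℝ) := ⟨_, rfl⟩
  rw [← hLd] at a2 a3 ⊢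
  have h2A : (1 : ℝ) ≤ 2 ^ (A + 4) := one_le_pow₀ (by norm_num)
  have hL0 : 0 < L := by linarith
  obtain ⟨c, hc⟩ : ∃ c, c = 2 ^ (A + 1) / L ^ (A + 1) := ⟨_, rfl⟩
  have hc0 : 0 < c := by rw [hc]; positivity
  have main : ∀ Y : ℕ, (((Icc 1 Y).filter P).card : ℝ) ≤ √(X : ℝ) + 2 * Y * c := by
    intro Y
    induction Y using Nat.strong_induction_on with
    | _ Y ih =>
      by_cases hY : (Y : ℝ) ≤ √(X : ℝ)
      · have e1 : (((Icc 1 Y).filter P).card : ℝ) ≤ Y := by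
          have := card_filter_le (Icc 1 Y) P
          rw [Nat.card_Icc, Nat.add_sub_cancel] at this
          exact_mod_cast this
        have : 0 ≤ 2 * (Y : ℝ) * c := by positivity
        linarith
      · push Not at hY
        have hY1 : 1 < Y := by
          have : (1 : ℝ) < Y := by linarith
          exact_mod_cast this
        have hY0 : (0 : ℝ) < Y := by linarith
        have hYX : X₀ ≤ Y := by
          have : (X₀ : ℝ) ≤ Y := by linarith
          exact_mod_cast this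
        have e1 := ih (Y / 2) (by omega)
        have e2 := h Y hYX
        have e3 : (Icc 1 Y).filter P ⊆ (Icc 1 (Y / 2)).filter P ∪ (Icc 1 Y).filter (fun m : ℕ => P m ∧ Y ≤ 2 * m) := by
          intro m hm
          rw [mem_filter, mem_Icc] at hm
          rw [mem_union, mem_filter, mem_filter, mem_Icc, mem_Icc]
          by_cases hh : Y ≤ 2 * m
          · right
            exact ⟨hm.1, hm.2, hh⟩
          · left
            exact ⟨⟨hm.1.1, by omega⟩, hm.2⟩
        have e4 : (((Icc 1 Y).filter P).card : ℝ) ≤ ((Icc 1 (Y / 2)).filter P).card +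
            ((Icc 1 Y).filter (fun m : ℕ => P m ∧ Y ≤ 2 * m)).card := by
          exact_mod_cast (card_le_card e3).trans (card_union_le _ _)
        have e5 : L / 2 ≤ Real.log Y := by
          have := Real.log_le_log hs0 hY.le
          rw [Real.log_sqrt hX0.le, ← hLd] at this
          exact this
        have e6 : (Y : ℝ) / Real.log Y ^ (A + 1) ≤ Y * c := by
          rw [hc]
          calc (Y : ℝ) / Real.log Y ^ (A + 1) ≤ Y / (L / 2) ^ (A + 1) := by gcongr
            _ = Y * (2 ^ (A + 1) / L ^ (A + 1)) := by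
                rw [div_pow]
                field_simp
        have e7 : ((Y / 2 : ℕ) : ℝ) ≤ Y / 2 := Nat.cast_div_le
        have e8 : 2 * ((Y / 2 : ℕ) : ℝ) * c ≤ 2 * (Y / 2) * c := by gcongr
        linarith
  refine (main X).trans ?_
  rw [hc]
  have e1 : √(X : ℝ) ≤ X / L ^ A / 2 := by
    rw [le_div_iff₀ (by norm_num), le_div_iff₀ (by positivity)]
    calc √(X : ℝ) * 2 * L ^ A = √(X : ℝ) * (2 * L ^ A) := by ring
      _ ≤ √(X : ℝ) * √(X : ℝ) := by gcongr
      _ = X := hss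
  have e2 : 2 * (X : ℝ) * (2 ^ (A + 1) / L ^ (A + 1)) ≤ X / L ^ A / 2 := by
    have e3 : 2 * (X : ℝ) * (2 ^ (A + 1) / L ^ (A + 1)) = (2 ^ (A + 3) / L) * (X / L ^ A / 2) := by
      rw [pow_succ L A]
      have : (2 : ℝ) ^ (A + 3) = 4 * 2 ^ (A + 1) := by ring
      rw [this]
      field_simp
      ring
    rw [e3]
    have e4 : (2 : ℝ) ^ (A + 3) / L ≤ 1 := by
      rw [div_le_one hL0]
      have : (2 : ℝ) ^ (A + 3) ≤ 2 ^ (A + 4) := pow_le_pow_right₀ (by norm_num) (by omega)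
      linarith
    have : 0 ≤ (X : ℝ) / L ^ A / 2 := by positivity
    nlinarith
  linarith

open Classical in
/-- **Almost all even numbers.** -/
theorem allS (ε : ℝ) (hε : 0 < ε) (W B A : ℕ) : ∃ D : ℕ, ∃ X₀ : ℕ, ∀ X : ℕ, X₀ ≤ X →
    (((Icc 1 X).filter (fun m : ℕ => 2 ∣ m ∧ ¬ HoldsS ε W B D m)).card : ℝ) ≤ X / Real.log X ^ A := by
  obtain ⟨D, X0, h⟩ := excH ε hε W B (A + 1)
  obtain ⟨X1, h1⟩ := dyadic (fun m : ℕ => 2 ∣ m ∧ ¬ HoldsS ε W B D m) A X0 (by
    intro X hX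
    refine le_trans (le_of_eq ?_) (h X hX)
    congr 2
    ext m
    simp only [mem_filter]
    tauto)
  refine ⟨D, X1, fun X hX => ?_⟩
  refine le_trans (le_of_eq ?_) (h1 X hX)
  congr 2
  ext m
  simp only [mem_filter]

end Pool.Agent.H561.CM
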